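import Pool.Agent.H70VM.Choice

/-!
# Elementary facts
-/

namespace H70VM

open Finset

theorem u_nonneg {s : ℝ} (h0 : 0 ≤ s) (h1 : s ≤ 1) : 0 ≤ u s := by
  unfold u; nlinarith

theorem u_le {s : ℝ} : u s ≤ s := by
  unfold u; nlinarith [sq_nonneg s]

theorem u_mono {s t : ℝ} (hst : s ≤ t) (h1 : t ≤ 1) : u s ≤ u t := by
  unfold u; nlinarith

theorem u_zero : u 0 = 0 := by unfold u; norm_num

theorem hasDerivAt_u (s : ℝ) : HasDerivAt u (1 - s / 2) s := by
  have h : HasDerivAt (fun s : ℝ => s - s ^ 2 / 4) (1 - (2 * s ^ (2 - 1)) / 4) s := by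
    exact (hasDerivAt_id' s).sub ((hasDerivAt_pow 2 s).div_const 4)
  have h2 : (1 - (2 * s ^ (2 - 1)) / 4 : ℝ) = 1 - s / 2 := by
    norm_num
    ring
  rw [h2] at h
  exact h

theorem u_half {s : ℝ} (h0 : 0 ≤ s) (h1 : s ≤ 1) : 7 * s / 16 ≤ u (s / 2) := by
  unfold u; nlinarith

theorem cv_nonneg {m : ℕ} {r s : Fin m → ℝ} (hr : ∀ j, 0 ≤ r j) (h0 : ∀ j, 0 ≤ s j)
    (h1 : ∀ j, s j ≤ 1) : 0 ≤ cv r s :=
  Finset.sum_nonneg fun j _ => mul_nonneg (hr j) (u_nonneg (h0 j) (h1 j))

theorem cv_le {m : ℕ} {r s : Fin m → ℝ} (hr : ∀ j, 0 ≤ r j) : cv r s ≤ ∑ j, r j * s j :=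
  Finset.sum_le_sum fun j _ => mul_le_mul_of_nonneg_left u_le (hr j)

theorem cv_mono {m : ℕ} {r s t : Fin m → ℝ} (hr : ∀ j, 0 ≤ r j)
    (hst : ∀ j, 0 < r j → s j ≤ t j) (h1 : ∀ j, t j ≤ 1) : cv r s ≤ cv r t := by
  refine Finset.sum_le_sum fun j _ => ?_
  rcases (hr j).eq_or_lt with h | h
  · rw [← h]; simp
  · exact mul_le_mul_of_nonneg_left (u_mono (hst j h) (h1 j)) (hr j)

theorem g_pos {B R : ℝ} (hB : 0 < B) (hR : 0 ≤ R) : 0 < g B R := by
  unfold g; positivity

theorem g_anti {B R R' : ℝ} (hB : 0 < B) (hR : 0 ≤ R) (h : R ≤ R') : g B R' ≤ g B R := by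
  unfold g
  exact div_le_div_of_nonneg_left hB.le (by linarith) (by linarith)

theorem hasDerivAt_G {B R : ℝ} (hB : 0 < B) (hR : 0 ≤ R) : HasDerivAt (G B) (g B R) R := by
  have h1 : HasDerivAt (fun R : ℝ => 1 + R / B) (1 / B) R := by
    simpa using ((hasDerivAt_id' R).div_const B).const_add 1
  have hpos : 0 < 1 + R / B := by positivity
  have h2 := (h1.log hpos.ne').const_mul B
  have h3 : B * (1 / B / (1 + R / B)) = g B R := by
    unfold g
    field_simp
  rw [h3] at h2
  exact h2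

theorem G_sub_le {B R R' : ℝ} (hB : 0 < B) (hR : 0 ≤ R) (hR' : 0 ≤ R') :
    G B R - G B R' ≤ g B R' * (R - R') := by
  unfold G g
  have h1 : 0 < 1 + R / B := by positivity
  have h2 : 0 < 1 + R' / B := by positivity
  have h3 : Real.log ((1 + R / B) / (1 + R' / B)) ≤ (1 + R / B) / (1 + R' / B) - 1 :=
    Real.log_le_sub_one_of_pos (by positivity)
  rw [Real.log_div h1.ne' h2.ne'] at h3
  have h4 : B * ((1 + R / B) / (1 + R' / B) - 1) = B / (B + R') * (R - R') := by
    field_simp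
    ring
  calc B * Real.log (1 + R / B) - B * Real.log (1 + R' / B)
      = B * (Real.log (1 + R / B) - Real.log (1 + R' / B)) := by ring
    _ ≤ B * ((1 + R / B) / (1 + R' / B) - 1) := mul_le_mul_of_nonneg_left h3 hB.le
    _ = _ := h4

theorem G_mono {B R R' : ℝ} (hB : 0 < B) (hR : 0 ≤ R) (h : R ≤ R') : G B R ≤ G B R' := by
  unfold G
  refine mul_le_mul_of_nonneg_left ?_ hB.le
  have h1 : 0 < 1 + R / B := by positivity
  refine Real.log_le_log h1 ?_
  have := div_le_div_of_nonneg_right h hB.le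
  linarith

/-! ### Allocations -/

section XA

variable {n m : ℕ} {A : Finset (Fin n)} {x : Fin n → Fin m → ℝ}

theorem XA_le_one (hx : x ∈ XA A) (i : Fin n) (j : Fin m) : x i j ≤ 1 :=
  (Finset.single_le_sum (f := fun i => x i j) (fun l _ => hx.1 l j) (Finset.mem_univ i)).trans
    (hx.2.2 j)

theorem XA_mem_of_pos (hx : x ∈ XA A) {i : Fin n} {j : Fin m} (h : 0 < x i j) : i ∈ A := by
  by_contra hi
  have := hx.2.1 i hi j
  linarith

theorem zero_mem_XA (A : Finset (Fin n)) : (fun _ _ => 0 : Fin n → Fin m → ℝ) ∈ XA A := by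
  refine ⟨fun _ _ => le_refl _, fun _ _ _ => rfl, fun j => ?_⟩
  simp

theorem isClosed_XA (A : Finset (Fin n)) : IsClosed (XA A : Set (Fin n → Fin m → ℝ)) := by
  have h1 : IsClosed {x : Fin n → Fin m → ℝ | ∀ i j, 0 ≤ x i j} := by
    simp only [Set.ofPred_forall]
    exact isClosed_iInter fun i => isClosed_iInter fun j =>
      isClosed_le continuous_const ((continuous_apply j).comp (continuous_apply i))
  have h2 : IsClosed {x : Fin n → Fin m → ℝ | ∀ i, i ∉ A → ∀ j, x i j = 0} := by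
    simp only [Set.ofPred_forall]
    exact isClosed_iInter fun i => isClosed_iInter fun _ => isClosed_iInter fun j =>
      isClosed_eq ((continuous_apply j).comp (continuous_apply i)) continuous_const
  have h3 : IsClosed {x : Fin n → Fin m → ℝ | ∀ j, ∑ i, x i j ≤ 1} := by
    simp only [Set.ofPred_forall]
    exact isClosed_iInter fun j => isClosed_le
      (continuous_finsetSum _ fun i _ => (continuous_apply j).comp (continuous_apply i))
      continuous_const
  exact h1.inter (h2.inter h3)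

theorem isCompact_XA (A : Finset (Fin n)) : IsCompact (XA A : Set (Fin n → Fin m → ℝ)) := by
  have h : IsCompact (Set.pi Set.univ fun _ : Fin n => Set.pi Set.univ fun _ : Fin m =>
      Set.Icc (0 : ℝ) 1) :=
    isCompact_univ_pi fun _ => isCompact_univ_pi fun _ => isCompact_Icc
  refine h.of_isClosed_subset (isClosed_XA A) ?_
  intro x hx i _ j _
  exact ⟨hx.1 i j, XA_le_one hx i j⟩

end XA

section Eco

variable {n m : ℕ} (e : Eco n m) {A : Finset (Fin n)}

theorem cv_XA_nonneg {x : Fin n → Fin m → ℝ} (hx : x ∈ XA A) (i : Fin n) :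
    0 ≤ cv (e.r i) (x i) :=
  cv_nonneg (e.r_nonneg i) (hx.1 i) (XA_le_one hx i)

theorem continuous_cv (r : Fin m → ℝ) : Continuous (cv r) := by
  unfold cv u
  fun_prop

theorem continuousOn_welfare (A' : Finset (Fin n)) :
    ContinuousOn (e.welfare A') (XA A : Set (Fin n → Fin m → ℝ)) := by
  unfold Eco.welfare G
  refine continuousOn_finsetSum _ fun i _ => ?_
  refine ContinuousOn.mul continuousOn_const ?_
  refine ContinuousOn.log ?_ ?_
  · refine ContinuousOn.add continuousOn_const (ContinuousOn.div_const ?_ _)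
    exact ((continuous_cv _).comp (continuous_apply i)).continuousOn
  · intro x hx
    have h1 := cv_XA_nonneg e hx i
    have h2 := e.B_pos i
    positivity

theorem exists_isOpt (A : Finset (Fin n)) : ∃ x, e.IsOpt A x := by
  obtain ⟨x, hx, hmax⟩ := (isCompact_XA A).exists_isMaxOn ⟨_, zero_mem_XA A⟩
    (continuousOn_welfare e (A := A) A)
  exact ⟨x, hx, fun z hz => hmax hz⟩

theorem bddAbove_welfare (A A' : Finset (Fin n)) :
    BddAbove (e.welfare A' '' (XA A : Set (Fin n → Fin m → ℝ))) :=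
  (isCompact_XA A).bddAbove_image (continuousOn_welfare e A')

theorem ext_nonneg {k : Fin n} {z : Fin n → Fin m → ℝ} (hz : z ∈ XA A) : 0 ≤ e.ext A k z := by
  unfold Eco.ext
  have := le_csSup (bddAbove_welfare e A (A.erase k)) (Set.mem_image_of_mem _ hz)
  linarith

theorem continuousOn_ext (k : Fin n) :
    ContinuousOn (e.ext A k) (XA A : Set (Fin n → Fin m → ℝ)) := by
  unfold Eco.ext
  exact continuousOn_const.sub (continuousOn_welfare e _)

theorem ext_congr {e e' : Eco n m} {k : Fin n}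
    (hr : ∀ l, l ≠ k → e.r l = e'.r l) (hB : ∀ l, l ≠ k → e.B l = e'.B l) :
    e.ext A k = e'.ext A k := by
  have h : e.welfare (A.erase k) = e'.welfare (A.erase k) := by
    funext z
    unfold Eco.welfare
    refine Finset.sum_congr rfl fun l hl => ?_
    rw [hr l (Finset.ne_of_mem_erase hl), hB l (Finset.ne_of_mem_erase hl)]
  funext z
  unfold Eco.ext
  rw [h]

end Eco

end H70VM
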