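import Pool.Agent.H70VM.Defs

/-!
# The choice of a value maximizer from a menu
-/

namespace H70VM

open Set

variable {α : Type} {Z : Set α} {E w : α → ℝ} {B : ℝ}

theorem exists_best [TopologicalSpace α] [T2Space α] (hZ : IsCompact Z) (hE : ContinuousOn E Z)
    (hw : ContinuousOn w Z) (B : ℝ) : ∃ o, Best Z E w B o := by
  by_cases hT : ∃ b z, 0 < b ∧ b ≤ B ∧ z ∈ Z ∧ b ≤ Real.exp (-(2 * E z / b)) * w z
  · obtain ⟨b0, z0, hb0, hb0B, hz0, hle0⟩ := hT
    set P : Set (ℝ × α) := Icc b0 B ×ˢ Z with hP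
    have hPc : IsCompact P := isCompact_Icc.prod hZ
    have hf : ContinuousOn (fun p : ℝ × α => Real.exp (-(2 * E p.2 / p.1)) * w p.2 - p.1) P := by
      have hE2 : ContinuousOn (fun p : ℝ × α => E p.2) P :=
        hE.comp continuous_snd.continuousOn (fun p hp => hp.2)
      have hw2 : ContinuousOn (fun p : ℝ × α => w p.2) P :=
        hw.comp continuous_snd.continuousOn (fun p hp => hp.2)
      have h1 : ContinuousOn (fun p : ℝ × α => p.1) P := continuous_fst.continuousOn
      refine ContinuousOn.sub (ContinuousOn.mul ?_ hw2) h1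
      refine Real.continuous_exp.comp_continuousOn ?_
      refine ContinuousOn.neg ?_
      refine ContinuousOn.div (continuousOn_const.mul hE2) h1 ?_
      intro p hp
      have : b0 ≤ p.1 := hp.1.1
      linarith
    have hK : IsClosed (P ∩ (fun p : ℝ × α => Real.exp (-(2 * E p.2 / p.1)) * w p.2 - p.1) ⁻¹' Ici 0) :=
      hf.preimage_isClosed_of_isClosed hPc.isClosed isClosed_Ici
    have hKc : IsCompact (P ∩ (fun p : ℝ × α => Real.exp (-(2 * E p.2 / p.1)) * w p.2 - p.1) ⁻¹' Ici 0) :=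
      hPc.of_isClosed_subset hK inter_subset_left
    have hne : (P ∩ (fun p : ℝ × α => Real.exp (-(2 * E p.2 / p.1)) * w p.2 - p.1) ⁻¹' Ici 0).Nonempty := by
      refine ⟨(b0, z0), ⟨⟨⟨le_refl _, hb0B⟩, hz0⟩, ?_⟩⟩
      simp only [mem_preimage, mem_Ici, sub_nonneg]
      exact hle0
    obtain ⟨⟨b, z1⟩, ⟨⟨⟨hb1, hb2⟩, hz1⟩, hbz⟩, hmax⟩ :=
      hKc.exists_isMaxOn hne (continuous_fst.continuousOn (s := _) : ContinuousOn (fun p : ℝ × α => p.1) _)
    simp only [mem_preimage, mem_Ici, sub_nonneg] at hbz hb1 hb2 hz1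
    have hbpos : 0 < b := lt_of_lt_of_le hb0 hb1
    have hf2 : ContinuousOn (fun z : α => Real.exp (-(2 * E z / b)) * w z) Z := by
      refine ContinuousOn.mul (Real.continuous_exp.comp_continuousOn ?_) hw
      exact ((continuousOn_const.mul hE).div_const b).neg
    obtain ⟨z, hz, hzmax⟩ := hZ.exists_isMaxOn ⟨z1, hz1⟩ hf2
    refine ⟨some (b, z), hbpos, hb2, hz, hbz.trans (hzmax hz1), fun z' hz' => hzmax hz', ?_⟩
    intro b' z' hb' hb'B hz' hle
    by_cases hlt : b0 ≤ b'
    · have : (b', z') ∈ P ∩ (fun p : ℝ × α => Real.exp (-(2 * E p.2 / p.1)) * w p.2 - p.1) ⁻¹' Ici 0 := by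
        refine ⟨⟨⟨hlt, hb'B⟩, hz'⟩, ?_⟩
        simp only [mem_preimage, mem_Ici, sub_nonneg]
        exact hle
      exact hmax this
    · exact (not_le.mp hlt).le.trans hb1
  · refine ⟨none, ?_⟩
    intro b z hb hbB hz
    by_contra hcon
    exact hT ⟨b, z, hb, hbB, hz, not_lt.mp hcon⟩

open Classical in
/-- A selection. -/
noncomputable def bestOf (Z : Set α) (E w : α → ℝ) (B : ℝ) : Option (ℝ × α) :=
  if h : ∃ o, Best Z E w B o then h.choose else none

theorem bestOf_spec (h : ∃ o, Best Z E w B o) : Best Z E w B (bestOf Z E w B) := by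
  unfold bestOf
  rw [dif_pos h]
  exact h.choose_spec

theorem payOf_nonneg {o : Option (ℝ × α)} (h : Best Z E w B o) : 0 ≤ payOf o := by
  cases o with
  | none => exact le_refl _
  | some p => exact h.1.le

theorem payOf_le_budget {o : Option (ℝ × α)} (h : Best Z E w B o) (hB : 0 ≤ B) : payOf o ≤ B := by
  cases o with
  | none => exact hB
  | some p => exact h.2.1

/-- The value of a choice. -/
noncomputable def valOf (E w : α → ℝ) : Option (ℝ × α) → ℝ
  | none => 0
  | some (b, z) => Real.exp (-(2 * E z / b)) * w z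

theorem payOf_le_valOf {o : Option (ℝ × α)} (h : Best Z E w B o) : payOf o ≤ valOf E w o := by
  cases o with
  | none => exact le_refl _
  | some p => exact h.2.2.2.1

theorem payOf_lower {o : Option (ℝ × α)} (h : Best Z E w B o) {b : ℝ} {z : α} (hb : 0 < b)
    (hbB : b ≤ B) (hz : z ∈ Z) (hle : b ≤ Real.exp (-(2 * E z / b)) * w z) : b ≤ payOf o := by
  cases o with
  | none => exact absurd (h b z hb hbB hz) (not_lt.mpr hle)
  | some p => exact h.2.2.2.2.2 b z hb hbB hz hle

theorem best_truthful {o : Option (ℝ × α)} (h : Best Z E w B o) (hEnn : ∀ z ∈ Z, 0 ≤ E z)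
    {b : ℝ} {z : α} {V : ℝ} (hb : 0 < b)
    (hbB : b ≤ B) (hz : z ∈ Z) (hV : b ≤ V) (hle : V ≤ Real.exp (-(2 * E z / b)) * w z) :
    V ≤ valOf E w o := by
  have h1 := payOf_lower h hb hbB hz (hV.trans hle)
  cases o with
  | none =>
    simp only [payOf] at h1
    linarith
  | some p =>
    obtain ⟨b', z'⟩ := p
    simp only [payOf] at h1
    obtain ⟨hb', -, -, -, hmax, -⟩ := h
    simp only [valOf]
    refine hle.trans (le_trans ?_ (hmax z hz))
    have hw : 0 ≤ w z := by
      have h2 : 0 < Real.exp (-(2 * E z / b)) * w z := lt_of_lt_of_le (lt_of_lt_of_le hb hV) hle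
      exact ((pos_iff_pos_of_mul_pos h2).mp (Real.exp_pos _)).le
    refine mul_le_mul_of_nonneg_right (Real.exp_le_exp.mpr ?_) hw
    have h3 : 2 * E z / b' ≤ 2 * E z / b :=
      div_le_div_of_nonneg_left (by have := hEnn z hz; linarith) hb h1
    linarith

theorem exp_half_bound : (4 : ℝ) / 7 ≤ Real.exp (-(1 / 2)) := by
  have h : (7 / 8 : ℝ) ≤ Real.exp (-(1 / 8)) := by
    have := Real.add_one_le_exp (-(1 / 8 : ℝ))
    linarith
  have h2 : Real.exp (-(1 / 2)) = Real.exp (-(1 / 8)) ^ 4 := by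
    rw [← Real.exp_nat_mul]
    norm_num
  rw [h2]
  calc (4 : ℝ) / 7 ≤ (7 / 8) ^ 4 := by norm_num
    _ ≤ _ := pow_le_pow_left₀ (by norm_num) h 4

/-- A good option forces a payment of a quarter of its value. -/
theorem best_quarter {o : Option (ℝ × α)} (h : Best Z E w B o) {P : ℝ} {z : α} (hP : P ≤ B)
    (hz : z ∈ Z) (hE : E z ≤ P / 16) (hw : 7 * P / 16 ≤ w z) : P / 4 ≤ payOf o := by
  by_cases hP0 : 0 < P
  · refine payOf_lower h (by linarith) (by linarith) hz ?_
    have h1 : 2 * E z / (P / 4) ≤ 1 / 2 := by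
      rw [div_le_iff₀ (by linarith)]
      linarith
    have h2 : Real.exp (-(1 / 2)) ≤ Real.exp (-(2 * E z / (P / 4))) :=
      Real.exp_le_exp.mpr (by linarith)
    have h3 := exp_half_bound
    calc P / 4 = 4 / 7 * (7 * P / 16) := by ring
      _ ≤ Real.exp (-(2 * E z / (P / 4))) * (7 * P / 16) :=
          mul_le_mul_of_nonneg_right (h3.trans h2) (by linarith)
      _ ≤ _ := mul_le_mul_of_nonneg_left hw (Real.exp_pos _).le
  · have := payOf_nonneg h
    linarith

/-- `t e^{-2t} ≤ 1`. -/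
theorem exp_price {b q : ℝ} (hb : 0 < b) (hq : 0 ≤ q) : Real.exp (-(2 * q / b)) * q ≤ b := by
  have h1 : q / b ≤ Real.exp (2 * q / b) := by
    have := Real.add_one_le_exp (2 * q / b)
    have h2 : 0 ≤ q / b := div_nonneg hq hb.le
    have h3 : 2 * q / b = 2 * (q / b) := by ring
    rw [h3] at this ⊢
    linarith
  have h4 : q ≤ Real.exp (2 * q / b) * b := by
    rwa [div_le_iff₀ hb] at h1
  rw [Real.exp_neg, inv_mul_le_iff₀ (Real.exp_pos _)]
  exact h4

end H70VM
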