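import Pool.Agent.H70VM.Basic

/-!
# The comparison lemma
-/

namespace H70VM

open Finset

variable {n m : ℕ} {e : Eco n m} {A : Finset (Fin n)}

/-- The agent whose multiplier grows least (from `x` to `y`) receives no more in `y`. -/
theorem ratio_le {α α' : Fin n → ℝ} {x y : Fin n → Fin m → ℝ} (hx : FOC e A α x)
    (hy : FOC e A α' y) (hα : ∀ i ∈ A, 0 < α i) (hα' : ∀ i ∈ A, 0 < α' i) {l : Fin n}
    (hl : l ∈ A) (hmin : ∀ i ∈ A, α' l * α i ≤ α' i * α l) {j : Fin m} (hr : 0 < e.r l j) :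
    y l j ≤ x l j := by
  by_contra hcon
  have hlt : x l j < y l j := not_le.mp hcon
  have hx1 : x l j ≤ 1 := XA_le_one hx.1 l j
  have hy1 : y l j ≤ 1 := XA_le_one hy.1 l j
  have hy0 : 0 < y l j := lt_of_le_of_lt (hx.1.1 l j) hlt
  -- the item is sold in `x`
  have hsold : 1 ≤ ∑ i, x i j := by
    by_contra h
    have := hx.2.2 l hl j (not_le.mp h)
    linarith
  have hy2 := hy.1.2.2 j
  -- somebody loses
  obtain ⟨i, hi⟩ : ∃ i, y i j < x i j := by
    by_contra h
    push Not at h
    have : ∑ i, x i j < ∑ i, y i j :=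
      Finset.sum_lt_sum (fun i _ => h i) ⟨l, Finset.mem_univ l, hlt⟩
    linarith
  have hxi : 0 < x i j := lt_of_le_of_lt (hy.1.1 i j) hi
  have hiA : i ∈ A := XA_mem_of_pos hx.1 hxi
  have h1 := hx.2.1 i hiA l hl j hxi
  have h2 := hy.2.1 l hl i hiA j hy0
  -- `h1 : α l * r l j * (1 - x l j / 2) ≤ α i * r i j * (1 - x i j / 2)`
  -- `h2 : α' i * r i j * (1 - y i j / 2) ≤ α' l * r l j * (1 - y l j / 2)`
  have hαl := hα l hl
  have hαi := hα i hiA
  have hαl' := hα' l hl
  have hαi' := hα' i hiA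
  have hxi1 : x i j ≤ 1 := XA_le_one hx.1 i j
  have hri : 0 < e.r i j := by
    have h3 : 0 < α l * e.r l j * (1 - x l j / 2) := by
      have : 0 < 1 - x l j / 2 := by linarith
      positivity
    have h4 : 0 < α i * e.r i j * (1 - x i j / 2) := lt_of_lt_of_le h3 h1
    by_contra hneg
    have h5 : e.r i j = 0 := le_antisymm (not_lt.mp hneg) (e.r_nonneg i j)
    rw [h5] at h4
    simp at h4
  -- chain
  have c1 : α i * e.r i j * (1 - x i j / 2) < α i * e.r i j * (1 - y i j / 2) := by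
    apply mul_lt_mul_of_pos_left _ (by positivity)
    linarith
  have c2 : α' l * e.r l j * (1 - y l j / 2) < α' l * e.r l j * (1 - x l j / 2) := by
    apply mul_lt_mul_of_pos_left _ (by positivity)
    linarith
  have hyi0 : 0 ≤ e.r i j * (1 - y i j / 2) := by
    have : y i j ≤ 1 := XA_le_one hy.1 i j
    have : 0 ≤ 1 - y i j / 2 := by linarith
    positivity
  have c3 : α' l * α i * (e.r i j * (1 - y i j / 2)) ≤ α' i * α l * (e.r i j * (1 - y i j / 2)) :=
    mul_le_mul_of_nonneg_right (hmin i hiA) hyi0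
  -- combine
  have d1 : α' l * (α l * e.r l j * (1 - x l j / 2)) < α' l * (α i * e.r i j * (1 - y i j / 2)) :=
    mul_lt_mul_of_pos_left (lt_of_le_of_lt h1 c1) hαl'
  have d2 : α l * (α' i * e.r i j * (1 - y i j / 2)) < α l * (α' l * e.r l j * (1 - x l j / 2)) :=
    mul_lt_mul_of_pos_left (lt_of_le_of_lt h2 c2) hαl
  have d3 : α' l * (α i * e.r i j * (1 - y i j / 2)) ≤ α l * (α' i * e.r i j * (1 - y i j / 2)) := by
    calc α' l * (α i * e.r i j * (1 - y i j / 2)) = α' l * α i * (e.r i j * (1 - y i j / 2)) := by ring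
      _ ≤ α' i * α l * (e.r i j * (1 - y i j / 2)) := c3
      _ = _ := by ring
  have d4 : α' l * (α l * e.r l j * (1 - x l j / 2)) = α l * (α' l * e.r l j * (1 - x l j / 2)) := by
    ring
  linarith

/-- The comparison lemma. -/
theorem compare {α α' : Fin n → ℝ} {x y : Fin n → Fin m → ℝ} (hx : FOC e A α x)
    (hy : FOC e A α' y) (hα : ∀ i ∈ A, 0 < α i) (hα' : ∀ i ∈ A, 0 < α' i)
    (hg : ∀ i ∈ A, α i = g (e.B i) (cv (e.r i) (x i)))
    {k : Fin n} (hk : k ∈ A)
    (hg' : ∀ i ∈ A, i ≠ k → α' i = g (e.B i) (cv (e.r i) (y i)))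
    (hgk : α' k ≤ g (e.B k) (cv (e.r k) (y k))) {j : Fin m} (hr : 0 < e.r k j) :
    y k j ≤ x k j := by
  -- ratios
  obtain ⟨M, hM, hMmax⟩ := Finset.exists_max_image A (fun i => α' i / α i) ⟨k, hk⟩
  obtain ⟨l, hl, hlmin⟩ := Finset.exists_min_image A (fun i => α' i / α i) ⟨k, hk⟩
  have hle : ∀ i ∈ A, α' i ≤ g (e.B i) (cv (e.r i) (y i)) := by
    intro i hi
    by_cases h : i = k
    · subst h; exact hgk
    · exact (hg' i hi h).le
  -- the maximal ratio is at most one
  have hT : α' M ≤ α M := by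
    have h1 : ∀ j, 0 < e.r M j → x M j ≤ y M j := by
      intro j hj
      refine ratio_le hy hx hα' hα hM ?_ hj
      intro i hi
      have := hMmax i hi
      rw [div_le_div_iff₀ (hα i hi) (hα M hM)] at this
      linarith
    have h2 : cv (e.r M) (x M) ≤ cv (e.r M) (y M) :=
      cv_mono (e.r_nonneg M) h1 (XA_le_one hy.1 M)
    have h3 := g_anti (e.B_pos M) (cv_XA_nonneg e hx.1 M) h2
    rw [hg M hM]
    exact (hle M hM).trans h3
  have hall : ∀ i ∈ A, α' i ≤ α i := by
    intro i hi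
    have h1 := hMmax i hi
    have h2 : α' M / α M ≤ 1 := by
      rw [div_le_one (hα M hM)]
      exact hT
    have h3 : α' i / α i ≤ 1 := le_trans h1 h2
    rwa [div_le_one (hα i hi)] at h3
  -- the minimal ratio is attained at `k`
  have hmin : ∀ i ∈ A, α' k * α i ≤ α' i * α k := by
    have h1 : ∀ j, 0 < e.r l j → y l j ≤ x l j := by
      intro j hj
      refine ratio_le hx hy hα hα' hl ?_ hj
      intro i hi
      have := hlmin i hi
      rw [div_le_div_iff₀ (hα l hl) (hα i hi)] at this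
      linarith
    intro i hi
    by_cases hlk : l = k
    · subst hlk
      have := hlmin i hi
      rwa [div_le_div_iff₀ (hα l hl) (hα i hi)] at this
    · have h2 : cv (e.r l) (y l) ≤ cv (e.r l) (x l) :=
        cv_mono (e.r_nonneg l) h1 (XA_le_one hx.1 l)
      have h3 := g_anti (e.B_pos l) (cv_XA_nonneg e hy.1 l) h2
      rw [← hg l hl, ← hg' l hl hlk] at h3
      -- so all the ratios are one
      have h4 : 1 ≤ α' l / α l := by
        rw [one_le_div (hα l hl)]
        exact h3
      have h5 : α i ≤ α' i := by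
        have := h4.trans (hlmin i hi)
        rwa [one_le_div (hα i hi)] at this
      have h6 := hall k hk
      calc α' k * α i ≤ α k * α' i :=
            mul_le_mul h6 h5 (hα i hi).le (hα k hk).le
        _ = α' i * α k := by ring
  exact ratio_le hx hy hα hα' hk hmin hr

end H70VM
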