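import Pool.Agent.H70VM.Model

/-!
# Value maximizers with private budgets and private target ratios: notions used in the proof
-/

namespace H70VM

open Finset

/-! ### Auxiliary notions -/

/-- `s ↦ s - s²/4`. -/
noncomputable def u (s : ℝ) : ℝ := s - s ^ 2 / 4

/-- The concave value of a virtual bundle. -/
noncomputable def cv {m : ℕ} (r : Fin m → ℝ) (s : Fin m → ℝ) : ℝ := ∑ j, r j * u (s j)

/-- The concave transform of the value. -/
noncomputable def G (B R : ℝ) : ℝ := B * Real.log (1 + R / B)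

/-- Its derivative. -/
noncomputable def g (B R : ℝ) : ℝ := B / (B + R)

/-- Normalised economies: `r i j = v_ij / τ_i`. -/
structure Eco (n m : ℕ) where
  r : Fin n → Fin m → ℝ
  B : Fin n → ℝ
  r_nonneg : ∀ i j, 0 ≤ r i j
  B_pos : ∀ i, 0 < B i

/-- Allocations among the agents of `A`. -/
def XA {n m : ℕ} (A : Finset (Fin n)) : Set (Fin n → Fin m → ℝ) :=
  {x | (∀ i j, 0 ≤ x i j) ∧ (∀ i, i ∉ A → ∀ j, x i j = 0) ∧ ∀ j, ∑ i, x i j ≤ 1}

/-- The welfare of the agents of `A`. -/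
noncomputable def Eco.welfare {n m : ℕ} (e : Eco n m) (A : Finset (Fin n))
    (x : Fin n → Fin m → ℝ) : ℝ :=
  ∑ i ∈ A, G (e.B i) (cv (e.r i) (x i))

/-- Optimal allocations for the agents of `A`. -/
def Eco.IsOpt {n m : ℕ} (e : Eco n m) (A : Finset (Fin n)) (x : Fin n → Fin m → ℝ) : Prop :=
  x ∈ XA A ∧ ∀ z ∈ XA A, e.welfare A z ≤ e.welfare A x

/-- The first order conditions with multipliers `α`. -/
def FOC {n m : ℕ} (e : Eco n m) (A : Finset (Fin n)) (α : Fin n → ℝ)
    (x : Fin n → Fin m → ℝ) : Prop :=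
  x ∈ XA A ∧
  (∀ i ∈ A, ∀ i' ∈ A, ∀ j, 0 < x i j →
    α i' * e.r i' j * (1 - x i' j / 2) ≤ α i * e.r i j * (1 - x i j / 2)) ∧
  (∀ i ∈ A, ∀ j, ∑ l, x l j < 1 → e.r i j = 0)

/-- The cost of the option `z` for agent `k`: what the other agents of `A` lose. -/
noncomputable def Eco.ext {n m : ℕ} (e : Eco n m) (A : Finset (Fin n)) (k : Fin n)
    (z : Fin n → Fin m → ℝ) : ℝ :=
  sSup (e.welfare (A.erase k) '' XA A) - e.welfare (A.erase k) z

/-- The choice of a value maximizer with budget `B` from the menu: for `z ∈ Z` pay `b > 0` and receive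
`exp (-2 E(z)/b)` times the bundle `z` of value `w z`. -/
def Best {α : Type} (Z : Set α) (E w : α → ℝ) (B : ℝ) (o : Option (ℝ × α)) : Prop :=
  match o with
  | none => ∀ b z, 0 < b → b ≤ B → z ∈ Z → Real.exp (-(2 * E z / b)) * w z < b
  | some (b, z) => 0 < b ∧ b ≤ B ∧ z ∈ Z ∧ b ≤ Real.exp (-(2 * E z / b)) * w z ∧
      (∀ z' ∈ Z, Real.exp (-(2 * E z' / b)) * w z' ≤ Real.exp (-(2 * E z / b)) * w z) ∧
      ∀ b' z', 0 < b' → b' ≤ B → z' ∈ Z → b' ≤ Real.exp (-(2 * E z' / b')) * w z' → b' ≤ b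

/-- The payment of a choice. -/
def payOf {α : Type} : Option (ℝ × α) → ℝ
  | none => 0
  | some (b, _) => b

/-- The factor of a choice. -/
noncomputable def facOf {α : Type} (E : α → ℝ) : Option (ℝ × α) → ℝ
  | none => 0
  | some (b, z) => Real.exp (-(2 * E z / b))

end H70VM
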