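import Pool.Agent.H70VM.Station

/-!
# Prices and the externality bound
-/

namespace H70VM

open Finset

/-- The price vector of an allocation. -/
noncomputable def price {n m : ℕ} (e : Eco n m) (A : Finset (Fin n)) (x : Fin n → Fin m → ℝ)
    (j : Fin m) : ℝ :=
  ∑ l ∈ A, g (e.B l) (cv (e.r l) (x l)) * (e.r l j * ((1 - x l j / 2) * x l j))

section single

variable {m : ℕ} {r x S : Fin m → ℝ} {B : ℝ}

theorem aux_diff {x s : ℝ} (h0 : 0 ≤ x) (h1 : x ≤ 1) (hs : 0 ≤ s) (hs1 : s ≤ 1) :
    u x - u ((1 - s / 2) * x) ≤ s * ((1 - x / 2) * x) := by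
  have e1 : u x - u ((1 - s / 2) * x) = s * x * ((1 - (2 - s / 2) * x / 4) / 2) := by
    unfold u; ring
  have e2 : s * ((1 - x / 2) * x) = s * x * (1 - x / 2) := by ring
  rw [e1, e2]
  refine mul_le_mul_of_nonneg_left ?_ (by positivity)
  nlinarith [mul_nonneg h0 (sub_nonneg.mpr hs1)]

theorem aux_half {x s : ℝ} (h0 : 0 ≤ x) (h1 : x ≤ 1) (hs : 0 ≤ s) (hs1 : s ≤ 1) :
    u x ≤ 2 * u ((1 - s / 2) * x) := by
  have e1 : 2 * u ((1 - s / 2) * x) - u x =
      x * ((1 - s) - (2 * (1 - s / 2) ^ 2 - 1) * x / 4) := by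
    unfold u; ring
  have h2 : 0 ≤ (1 - s) - (2 * (1 - s / 2) ^ 2 - 1) * x / 4 := by
    have h3 : (2 * (1 - s / 2) ^ 2 - 1) ≤ 1 - s := by nlinarith
    have h4 : (2 * (1 - s / 2) ^ 2 - 1) * x ≤ (1 - s) * x := mul_le_mul_of_nonneg_right h3 h0
    nlinarith
  have h3 := mul_nonneg h0 h2
  linarith

theorem single_bound (hr : ∀ j, 0 ≤ r j) (hx0 : ∀ j, 0 ≤ x j) (hx1 : ∀ j, x j ≤ 1)
    (hS0 : ∀ j, 0 ≤ S j) (hS1 : ∀ j, S j ≤ 1) (hB : 0 < B) :
    G B (cv r x) - G B (cv r fun j => (1 - S j / 2) * x j) ≤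
      ∑ j, 2 * S j * (g B (cv r x) * (r j * ((1 - x j / 2) * x j))) := by
  have ha0 : ∀ j, 0 ≤ (1 - S j / 2) * x j := fun j =>
    mul_nonneg (by have := hS1 j; linarith) (hx0 j)
  have ha1 : ∀ j, (1 - S j / 2) * x j ≤ 1 := fun j => by
    have h1 := hS0 j
    have h2 := hx1 j
    have h3 := hx0 j
    nlinarith
  have hR : 0 ≤ cv r x := cv_nonneg hr hx0 hx1
  have hR' : 0 ≤ cv r fun j => (1 - S j / 2) * x j := cv_nonneg hr ha0 ha1
  have h1 := G_sub_le hB hR hR'
  have h2 : cv r x - (cv r fun j => (1 - S j / 2) * x j) ≤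
      ∑ j, S j * (r j * ((1 - x j / 2) * x j)) := by
    unfold cv
    rw [← Finset.sum_sub_distrib]
    refine Finset.sum_le_sum fun j _ => ?_
    have := mul_le_mul_of_nonneg_left (aux_diff (hx0 j) (hx1 j) (hS0 j) (hS1 j)) (hr j)
    linarith
  have h3 : cv r x ≤ 2 * (cv r fun j => (1 - S j / 2) * x j) := by
    unfold cv
    rw [Finset.mul_sum]
    refine Finset.sum_le_sum fun j _ => ?_
    have := mul_le_mul_of_nonneg_left (aux_half (hx0 j) (hx1 j) (hS0 j) (hS1 j)) (hr j)
    linarith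
  have h4 : g B (cv r fun j => (1 - S j / 2) * x j) ≤ 2 * g B (cv r x) := by
    unfold g
    rw [← mul_div_assoc, div_le_div_iff₀ (by positivity) (by positivity)]
    nlinarith
  have h5 : 0 ≤ ∑ j, S j * (r j * ((1 - x j / 2) * x j)) := by
    refine Finset.sum_nonneg fun j _ => ?_
    have a1 := hS0 j
    have a2 := hr j
    have a3 := hx0 j
    have a4 : 0 ≤ 1 - x j / 2 := by have := hx1 j; linarith
    positivity
  calc G B (cv r x) - G B (cv r fun j => (1 - S j / 2) * x j)
      ≤ g B (cv r fun j => (1 - S j / 2) * x j) *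
        (cv r x - (cv r fun j => (1 - S j / 2) * x j)) := h1
    _ ≤ g B (cv r fun j => (1 - S j / 2) * x j) * ∑ j, S j * (r j * ((1 - x j / 2) * x j)) :=
        mul_le_mul_of_nonneg_left h2 (g_pos hB hR').le
    _ ≤ 2 * g B (cv r x) * ∑ j, S j * (r j * ((1 - x j / 2) * x j)) :=
        mul_le_mul_of_nonneg_right h4 h5
    _ = _ := by
        rw [Finset.mul_sum]
        refine Finset.sum_congr rfl fun j _ => ?_
        ring

end single

variable {n m : ℕ} {e : Eco n m} {A : Finset (Fin n)}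

theorem price_nonneg {x : Fin n → Fin m → ℝ} (hx : x ∈ XA A) (j : Fin m) :
    0 ≤ price e A x j := by
  refine Finset.sum_nonneg fun l _ => ?_
  have h1 := (g_pos (e.B_pos l) (cv_XA_nonneg e hx l)).le
  have h2 := e.r_nonneg l j
  have h3 := hx.1 l j
  have h4 : 0 ≤ 1 - x l j / 2 := by have := XA_le_one hx l j; linarith
  positivity

theorem price_sum_le {x : Fin n → Fin m → ℝ} (hx : x ∈ XA A) :
    ∑ j, price e A x j ≤ ∑ i, min (e.B i) (∑ j, e.r i j * x i j) := by
  unfold price
  rw [Finset.sum_comm]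
  have h0 : ∀ i, 0 ≤ min (e.B i) (∑ j, e.r i j * x i j) := fun i =>
    le_min (e.B_pos i).le (Finset.sum_nonneg fun j _ => mul_nonneg (e.r_nonneg i j) (hx.1 i j))
  refine le_trans ?_ (Finset.sum_le_univ_sum_of_nonneg (s := A) h0)
  refine Finset.sum_le_sum fun l _ => ?_
  rw [← Finset.mul_sum]
  have hR := cv_XA_nonneg e hx l
  have hB := e.B_pos l
  have h1 : ∑ j, e.r l j * ((1 - x l j / 2) * x l j) ≤ cv (e.r l) (x l) := by
    unfold cv
    refine Finset.sum_le_sum fun j _ => mul_le_mul_of_nonneg_left ?_ (e.r_nonneg l j)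
    unfold u
    nlinarith [sq_nonneg (x l j)]
  have h2 : g (e.B l) (cv (e.r l) (x l)) * cv (e.r l) (x l) ≤ min (e.B l) (cv (e.r l) (x l)) := by
    unfold g
    rw [div_mul_eq_mul_div]
    refine le_min ?_ ?_
    · rw [div_le_iff₀ (by positivity)]
      nlinarith
    · rw [div_le_iff₀ (by positivity)]
      nlinarith
  calc g (e.B l) (cv (e.r l) (x l)) * ∑ j, e.r l j * ((1 - x l j / 2) * x l j)
      ≤ g (e.B l) (cv (e.r l) (x l)) * cv (e.r l) (x l) :=
        mul_le_mul_of_nonneg_left h1 (g_pos hB hR).le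
    _ ≤ min (e.B l) (cv (e.r l) (x l)) := h2
    _ ≤ _ := min_le_min_left _ (cv_le (e.r_nonneg l))

/-- The externality bound. -/
theorem ext_option {k : Fin n} (hk : k ∈ A) {xG : Fin n → Fin m → ℝ}
    (hxG : e.IsOpt (A.erase k) xG) {S : Fin m → ℝ} (hS0 : ∀ j, 0 ≤ S j) (hS1 : ∀ j, S j ≤ 1) :
    ∃ z ∈ XA A, e.ext A k z ≤ ∑ j, 2 * S j * price e (A.erase k) xG j ∧
      ∑ j, 7 * (e.r k j * S j) / 16 ≤ cv (e.r k) (z k) := by
  refine ⟨fun l j => if l = k then S j / 2 else (1 - S j / 2) * xG l j, ?_, ?_, ?_⟩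
  · refine ⟨?_, ?_, ?_⟩
    · intro l j
      have h1 := hS0 j
      have h2 := hS1 j
      have h3 := hxG.1.1 l j
      show 0 ≤ if l = k then S j / 2 else (1 - S j / 2) * xG l j
      split_ifs
      · linarith
      · exact mul_nonneg (by linarith) h3
    · intro l hl j
      have h1 : l ≠ k := fun h => hl (h ▸ hk)
      have h2 : l ∉ A.erase k := fun h => hl (Finset.mem_of_mem_erase h)
      show (if l = k then S j / 2 else (1 - S j / 2) * xG l j) = 0
      rw [if_neg h1, hxG.1.2.1 l h2 j, mul_zero]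
    · intro j
      have h1 := hxG.1.2.2 j
      have h2 : xG k j = 0 := hxG.1.2.1 k (Finset.notMem_erase k A) j
      have h3 : ∑ l, (if l = k then S j / 2 else (1 - S j / 2) * xG l j) =
          S j / 2 + (1 - S j / 2) * ∑ l, xG l j := by
        have e1 : ∀ l, (if l = k then S j / 2 else (1 - S j / 2) * xG l j) =
            (if l = k then S j / 2 else 0) + (1 - S j / 2) * xG l j := by
          intro l
          by_cases hl : l = k
          · subst hl; simp [h2]
          · simp [hl]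
        rw [Finset.sum_congr rfl fun l _ => e1 l, Finset.sum_add_distrib,
          Finset.sum_ite_eq' Finset.univ k, if_pos (Finset.mem_univ k), ← Finset.mul_sum]
      show ∑ l, (if l = k then S j / 2 else (1 - S j / 2) * xG l j) ≤ 1
      rw [h3]
      have h4 : 0 ≤ 1 - S j / 2 := by have := hS1 j; linarith
      have h5 := mul_le_mul_of_nonneg_left h1 h4
      linarith
  · unfold Eco.ext
    have hsup : sSup (e.welfare (A.erase k) '' XA A) ≤ e.welfare (A.erase k) xG := by
      refine csSup_le (Set.Nonempty.image _ ⟨_, zero_mem_XA A⟩) ?_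
      rintro _ ⟨z, hz, rfl⟩
      have h1 : (fun l j => if l = k then 0 else z l j) ∈ XA (A.erase k) := by
        refine ⟨?_, ?_, ?_⟩
        · intro l j
          show 0 ≤ if l = k then 0 else z l j
          split_ifs
          · exact le_refl _
          · exact hz.1 l j
        · intro l hl j
          show (if l = k then 0 else z l j) = 0
          by_cases hlk : l = k
          · rw [if_pos hlk]
          · rw [if_neg hlk]
            exact hz.2.1 l (fun h => hl (Finset.mem_erase.mpr ⟨hlk, h⟩)) j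
        · intro j
          refine le_trans (Finset.sum_le_sum fun l _ => ?_) (hz.2.2 j)
          show (if l = k then 0 else z l j) ≤ z l j
          split_ifs
          · exact hz.1 l j
          · exact le_refl _
      refine le_trans (le_of_eq ?_) (hxG.2 _ h1)
      unfold Eco.welfare
      refine Finset.sum_congr rfl fun l hl => ?_
      have hlk : l ≠ k := Finset.ne_of_mem_erase hl
      congr 2
      funext j
      simp [hlk]
    refine le_trans (sub_le_sub_right hsup _) ?_
    unfold Eco.welfare price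
    rw [← Finset.sum_sub_distrib]
    have e2 : ∑ j, 2 * S j * ∑ l ∈ A.erase k, g (e.B l) (cv (e.r l) (xG l)) *
        (e.r l j * ((1 - xG l j / 2) * xG l j)) =
        ∑ l ∈ A.erase k, ∑ j, 2 * S j * (g (e.B l) (cv (e.r l) (xG l)) *
          (e.r l j * ((1 - xG l j / 2) * xG l j))) := by
      rw [Finset.sum_comm]
      refine Finset.sum_congr rfl fun j _ => ?_
      rw [Finset.mul_sum]
    rw [e2]
    refine Finset.sum_le_sum fun l hl => ?_
    have hlk : l ≠ k := Finset.ne_of_mem_erase hl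
    have h3 := single_bound (B := e.B l) (e.r_nonneg l) (hxG.1.1 l) (XA_le_one hxG.1 l) hS0 hS1
      (e.B_pos l)
    refine le_trans (le_of_eq ?_) h3
    congr 3
    funext j
    simp [hlk]
  · unfold cv
    refine Finset.sum_le_sum fun j _ => ?_
    show 7 * (e.r k j * S j) / 16 ≤ e.r k j * u (if k = k then S j / 2 else _)
    rw [if_pos rfl]
    have := mul_le_mul_of_nonneg_left (u_half (hS0 j) (hS1 j)) (e.r_nonneg k j)
    linarith

end H70VM
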