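import Pool.Agent.H70VM.M2

/-!
# Sequential posted prices
-/

namespace H70VM

open Finset

variable {n m : ℕ}

/-- The choice from the posted prices `π` with supply `y`. -/
noncomputable def choice1 (π y : Fin m → ℝ) (t : AgentType m) : Option (ℝ × (Fin m → ℝ)) :=
  bestOf (Set.Icc (fun _ => 0) y) (fun S => ∑ j, π j * S j) (fun S => cv t.rr S) t.B

theorem choice1_spec (π y : Fin m → ℝ) (t : AgentType m) :
    Best (Set.Icc (fun _ => 0) y) (fun S => ∑ j, π j * S j) (fun S => cv t.rr (id S)) t.B
      (choice1 π y t) :=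
  bestOf_spec (exists_best isCompact_Icc (by fun_prop) (continuous_cv _).continuousOn _)

/-- The bundle bought. -/
noncomputable def bundle1 (π y : Fin m → ℝ) (t : AgentType m) : Fin m → ℝ :=
  allocOf t (fun S => ∑ j, π j * S j) id (choice1 π y t)

section one

variable {π y : Fin m → ℝ} (t : AgentType m)

theorem bundle1_bounds (hπ : ∀ j, 0 ≤ π j) (hy0 : ∀ j, 0 ≤ y j) (hy : ∀ j, y j ≤ 1) (j : Fin m) :
    0 ≤ bundle1 π y t j ∧ bundle1 π y t j ≤ y j := by
  have h := choice1_spec π y t
  unfold bundle1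
  cases ho : choice1 π y t with
  | none => exact ⟨le_refl _, hy0 j⟩
  | some p =>
    obtain ⟨b, S⟩ := p
    rw [ho] at h
    have hS := h.2.2.1
    have hE : 0 ≤ ∑ j, π j * S j := Finset.sum_nonneg fun j _ => mul_nonneg (hπ j) (hS.1 j)
    simp only [allocOf, id]
    refine ⟨deliver_nonneg t (Real.exp_pos _).le hS.1 (fun j => (hS.2 j).trans (hy j)) j, ?_⟩
    exact (deliver_le t (Real.exp_pos _).le
      (fac_le_one (E := fun S : Fin m → ℝ => ∑ j, π j * S j) h.1 hE) hS.1 j).2.trans (hS.2 j)

theorem bundle1_price (hπ : ∀ j, 0 ≤ π j) :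
    ∑ j, π j * bundle1 π y t j ≤ payOf (choice1 π y t) := by
  have h := choice1_spec π y t
  unfold bundle1
  cases ho : choice1 π y t with
  | none => simp [allocOf, payOf]
  | some p =>
    obtain ⟨b, S⟩ := p
    rw [ho] at h
    have hS := h.2.2.1
    have hE : 0 ≤ ∑ j, π j * S j := Finset.sum_nonneg (fun j _ => mul_nonneg (hπ j) (hS.1 j))
    have key : Real.exp (-(2 * (∑ j, π j * S j) / b)) * (∑ j, π j * S j) ≤ b :=
      exp_price h.1 hE
    refine le_trans ?_ key
    have hf := fac_le_one (E := fun S : Fin m → ℝ => ∑ j, π j * S j) h.1 hE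
    show ∑ j, π j * deliver t (Real.exp (-(2 * (∑ j, π j * S j) / b))) S j ≤
      Real.exp (-(2 * (∑ j, π j * S j) / b)) * (∑ j, π j * S j)
    have hf0 : 0 ≤ Real.exp (-(2 * (∑ j, π j * S j) / b)) := (Real.exp_pos _).le
    revert hf hf0
    generalize Real.exp (-(2 * (∑ j, π j * S j) / b)) = f
    intro hf hf0
    rw [Finset.mul_sum]
    refine Finset.sum_le_sum (fun j _ => ?_)
    have h1 := (deliver_le t hf0 hf hS.1 j).1
    have h2 := mul_le_mul_of_nonneg_left h1 (hπ j)
    linarith

theorem pay_lower1 {S : Fin m → ℝ} (h0 : ∀ j, 0 ≤ S j) (h1 : ∀ j, S j ≤ y j) {P : ℝ}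
    (hPB : P ≤ t.B) (hprice : ∑ j, π j * S j ≤ P / 16) (hval : 7 * P / 16 ≤ cv t.rr S) :
    P / 4 ≤ payOf (choice1 π y t) :=
  best_quarter (choice1_spec π y t) hPB ⟨h0, h1⟩ hprice hval

end one

/-! ### The sequence of agents -/

/-- The remaining supply when the agent with index `t` arrives. -/
noncomputable def supply (π : Fin m → ℝ) (F : Finset (Fin n)) (θ : Profile n m) :
    ℕ → Fin m → ℝ
  | 0 => fun _ => 1
  | t + 1 => fun j => supply π F θ t j -
      (if h : t < n then (if (⟨t, h⟩ : Fin n) ∈ F then bundle1 π (supply π F θ t) (θ ⟨t, h⟩) j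
        else 0) else 0)

/-- The allocation. -/
noncomputable def alloc1 (π : Fin m → ℝ) (F : Finset (Fin n)) (θ : Profile n m) (i : Fin n) :
    Fin m → ℝ :=
  if i ∈ F then bundle1 π (supply π F θ i) (θ i) else fun _ => 0

/-- The payments. -/
noncomputable def pay1 (π : Fin m → ℝ) (F : Finset (Fin n)) (θ : Profile n m) (i : Fin n) : ℝ :=
  if i ∈ F then payOf (choice1 π (supply π F θ i) (θ i)) else 0

section seq

variable {π : Fin m → ℝ} {F : Finset (Fin n)} {θ : Profile n m}

theorem supply_succ (t : ℕ) (j : Fin m) : supply π F θ (t + 1) j =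
    supply π F θ t j - (if h : t < n then alloc1 π F θ ⟨t, h⟩ j else 0) := by
  show supply π F θ t j - (if h : t < n then (if (⟨t, h⟩ : Fin n) ∈ F then
    bundle1 π (supply π F θ t) (θ ⟨t, h⟩) j else 0) else 0) = _
  congr 1
  by_cases h : t < n
  · rw [dif_pos h, dif_pos h]
    unfold alloc1
    split_ifs <;> rfl
  · rw [dif_neg h, dif_neg h]

theorem supply_bounds (hπ : ∀ j, 0 ≤ π j) (t : ℕ) :
    (∀ j, 0 ≤ supply π F θ t j) ∧ ∀ j, supply π F θ t j ≤ 1 := by
  induction t with
  | zero => exact ⟨fun j => zero_le_one, fun j => le_refl _⟩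
  | succ t ih =>
    have key : ∀ j, 0 ≤ (if h : t < n then alloc1 π F θ ⟨t, h⟩ j else 0) ∧
        (if h : t < n then alloc1 π F θ ⟨t, h⟩ j else 0) ≤ supply π F θ t j := by
      intro j
      split_ifs with h
      · unfold alloc1
        split_ifs with hF
        · exact bundle1_bounds (θ ⟨t, h⟩) hπ ih.1 ih.2 j
        · exact ⟨le_refl _, ih.1 j⟩
      · exact ⟨le_refl _, ih.1 j⟩
    refine ⟨fun j => ?_, fun j => ?_⟩
    · rw [supply_succ]
      linarith [(key j).2]
    · rw [supply_succ]
      linarith [(key j).1, ih.2 j]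

theorem alloc1_bounds (hπ : ∀ j, 0 ≤ π j) (i : Fin n) (j : Fin m) :
    0 ≤ alloc1 π F θ i j ∧ alloc1 π F θ i j ≤ supply π F θ i j := by
  have hs := supply_bounds (F := F) (θ := θ) hπ i
  unfold alloc1
  split_ifs
  · exact bundle1_bounds (θ i) hπ hs.1 hs.2 j
  · exact ⟨le_refl _, hs.1 j⟩

theorem supply_antitone (hπ : ∀ j, 0 ≤ π j) (j : Fin m) :
    Antitone fun t => supply π F θ t j := by
  refine antitone_nat_of_succ_le fun t => ?_
  rw [supply_succ]
  split_ifs with h
  · linarith [(alloc1_bounds (F := F) (θ := θ) hπ ⟨t, h⟩ j).1]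
  · linarith

theorem supply_eq (t : ℕ) (j : Fin m) : supply π F θ t j =
    1 - ∑ i ∈ Finset.range t, (if h : i < n then alloc1 π F θ ⟨i, h⟩ j else 0) := by
  induction t with
  | zero => simp [supply]
  | succ t ih =>
    rw [supply_succ, ih, Finset.sum_range_succ]
    ring

theorem supply_final (j : Fin m) : supply π F θ n j = 1 - ∑ i, alloc1 π F θ i j := by
  rw [supply_eq, Finset.sum_range]
  congr 1
  refine Finset.sum_congr rfl fun i _ => ?_
  rw [dif_pos i.2]

theorem supply_congr {θ' : Profile n m} (t : ℕ) (h : ∀ l : Fin n, l.val < t → θ l = θ' l) :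
    supply π F θ t = supply π F θ' t := by
  induction t with
  | zero => rfl
  | succ t ih =>
    have ih' := ih fun l hl => h l (Nat.lt_succ_of_lt hl)
    funext j
    show supply π F θ t j - (if h : t < n then (if (⟨t, h⟩ : Fin n) ∈ F then
      bundle1 π (supply π F θ t) (θ ⟨t, h⟩) j else 0) else 0) =
      supply π F θ' t j - (if h : t < n then (if (⟨t, h⟩ : Fin n) ∈ F then
      bundle1 π (supply π F θ' t) (θ' ⟨t, h⟩) j else 0) else 0)
    rw [ih']
    congr 1
    by_cases ht : t < n
    · rw [dif_pos ht, dif_pos ht, h ⟨t, ht⟩ (Nat.lt_succ_self t)]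
    · rw [dif_neg ht, dif_neg ht]

theorem pay1_nonneg (i : Fin n) : 0 ≤ pay1 π F θ i := by
  unfold pay1
  split_ifs
  · exact payOf_nonneg (choice1_spec π _ (θ i))
  · exact le_refl _

theorem pay1_price (hπ : ∀ j, 0 ≤ π j) (i : Fin n) :
    ∑ j, π j * alloc1 π F θ i j ≤ pay1 π F θ i := by
  unfold alloc1 pay1
  split_ifs
  · exact bundle1_price (θ i) hπ
  · simp

end seq

/-! ### The mechanism -/

/-- The type used to replace the types outside `Gs`. -/
def dflt (m : ℕ) : AgentType m where
  v := fun _ => 0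
  B := 1
  τ := 1
  v_nonneg := fun _ => le_refl _
  B_pos := one_pos
  τ_pos := one_pos

open Classical in
/-- The profile restricted to `Gs`. -/
noncomputable def maskP (Gs : Finset (Fin n)) (θ : Profile n m) : Profile n m :=
  fun i => if i ∈ Gs then θ i else dflt m

/-- An optimal allocation. -/
noncomputable def xoptE (e : Eco n m) (A : Finset (Fin n)) : Fin n → Fin m → ℝ :=
  (exists_isOpt e A).choose

/-- An optimal allocation of the restricted profile. -/
noncomputable def xopt (Gs : Finset (Fin n)) (θ : Profile n m) : Fin n → Fin m → ℝ :=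
  xoptE (toEco (maskP Gs θ)) Gs

theorem xopt_spec (Gs : Finset (Fin n)) (θ : Profile n m) : (toEco θ).IsOpt Gs (xopt Gs θ) := by
  have h := (exists_isOpt (toEco (maskP Gs θ)) Gs).choose_spec
  have hw : (toEco (maskP Gs θ)).welfare Gs = (toEco θ).welfare Gs := by
    funext z
    unfold Eco.welfare
    refine Finset.sum_congr rfl fun l hl => ?_
    simp [toEco, maskP, hl]
  refine ⟨h.1, fun z hz => ?_⟩
  have := h.2 z hz
  rw [hw] at this
  exact this

/-- The prices computed from the reports of `Gs`. -/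
noncomputable def priceG (Gs : Finset (Fin n)) (θ : Profile n m) : Fin m → ℝ :=
  price (toEco (maskP Gs θ)) Gs (xopt Gs θ)

theorem priceG_eq (Gs : Finset (Fin n)) (θ : Profile n m) :
    priceG Gs θ = price (toEco θ) Gs (xopt Gs θ) := by
  funext j
  unfold priceG price
  refine Finset.sum_congr rfl fun l hl => ?_
  simp [toEco, maskP, hl]

theorem priceG_nonneg (Gs : Finset (Fin n)) (θ : Profile n m) (j : Fin m) :
    0 ≤ priceG Gs θ j := by
  rw [priceG_eq]
  exact price_nonneg (xopt_spec Gs θ).1 j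

theorem priceG_congr (Gs : Finset (Fin n)) {θ θ' : Profile n m} (h : ∀ i ∈ Gs, θ i = θ' i) :
    priceG Gs θ = priceG Gs θ' := by
  have h1 : maskP Gs θ = maskP Gs θ' := by
    funext i
    unfold maskP
    split_ifs with hi
    · exact h i hi
    · rfl
  unfold priceG xopt
  rw [h1]

/-- The posted prices. -/
noncomputable def post (Gs : Finset (Fin n)) (θ : Profile n m) (j : Fin m) : ℝ :=
  priceG Gs θ j / 32

theorem post_nonneg (Gs : Finset (Fin n)) (θ : Profile n m) (j : Fin m) : 0 ≤ post Gs θ j :=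
  div_nonneg (priceG_nonneg Gs θ j) (by norm_num)

/-- The posted price mechanism. -/
noncomputable def mech1 (Gs : Finset (Fin n)) : Mechanism n m where
  alloc := fun θ => alloc1 (post Gs θ) Gsᶜ θ
  pay := fun θ => pay1 (post Gs θ) Gsᶜ θ
  feasible := fun θ => by
    refine ⟨fun i j => (alloc1_bounds (post_nonneg Gs θ) i j).1, fun j => ?_⟩
    have h1 := supply_final (π := post Gs θ) (F := Gsᶜ) (θ := θ) j
    have h2 := (supply_bounds (F := Gsᶜ) (θ := θ) (post_nonneg Gs θ) n).1 j
    linarith

theorem mech1_truthful (Gs : Finset (Fin n)) : (mech1 Gs : Mechanism n m).Truthful := by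
  intro θ i
  by_cases hi : i ∈ Gsᶜ
  · have hiG : i ∉ Gs := Finset.mem_compl.mp hi
    have hpost : ∀ t' : AgentType m, post Gs (Function.update θ i t') = post Gs θ := by
      intro t'
      funext j
      unfold post
      rw [priceG_congr Gs (θ' := θ)]
      intro l hl
      exact Function.update_of_ne (by rintro rfl; exact hiG hl) _ _
    have hsup : ∀ t' : AgentType m, supply (post Gs θ) Gsᶜ (Function.update θ i t') i =
        supply (post Gs θ) Gsᶜ θ i := by
      intro t'
      refine supply_congr _ fun l hl => ?_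
      exact Function.update_of_ne (fun h => by rw [h] at hl; exact lt_irrefl _ hl) _ _
    have hs := supply_bounds (F := Gsᶜ) (θ := θ) (post_nonneg Gs θ) i
    have key := fun t' : AgentType m => outcome_truthful (θ i) t'
      (Z := Set.Icc (fun _ => 0) (supply (post Gs θ) Gsᶜ θ i))
      (E := fun S => ∑ j, post Gs θ j * S j) (β := id)
      (fun S hS => Finset.sum_nonneg fun j _ => mul_nonneg (post_nonneg Gs θ j) (hS.1 j))
      (fun S hS => hS.1) (fun S hS j => (hS.2 j).trans (hs.2 j))
      (choice1_spec (post Gs θ) (supply (post Gs θ) Gsᶜ θ i) (θ i))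
      (choice1_spec (post Gs θ) (supply (post Gs θ) Gsᶜ θ i) t')
    have e1 : ∀ t' : AgentType m, (mech1 Gs).alloc (Function.update θ i t') i =
        bundle1 (post Gs θ) (supply (post Gs θ) Gsᶜ θ i) t' := by
      intro t'
      show alloc1 (post Gs (Function.update θ i t')) Gsᶜ (Function.update θ i t') i = _
      unfold alloc1
      rw [if_pos hi, hpost, hsup, Function.update_self]
    have e2 : ∀ t' : AgentType m, (mech1 Gs).pay (Function.update θ i t') i =
        payOf (choice1 (post Gs θ) (supply (post Gs θ) Gsᶜ θ i) t') := by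
      intro t'
      show pay1 (post Gs (Function.update θ i t')) Gsᶜ (Function.update θ i t') i = _
      unfold pay1
      rw [if_pos hi, hpost, hsup, Function.update_self]
    have e3 := e1 (θ i)
    have e4 := e2 (θ i)
    rw [Function.update_eq_self] at e3 e4
    rw [e3, e4]
    refine ⟨(key (θ i)).1, fun t' => ?_⟩
    rw [e1, e2]
    exact (key t').2
  · have e1 : ∀ θ' : Profile n m, (mech1 Gs).alloc θ' i = fun _ => 0 := by
      intro θ'
      show alloc1 _ Gsᶜ θ' i = _
      unfold alloc1
      rw [if_neg hi]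
    have e2 : ∀ θ' : Profile n m, (mech1 Gs).pay θ' i = 0 := by
      intro θ'
      show pay1 _ Gsᶜ θ' i = _
      unfold pay1
      rw [if_neg hi]
    refine ⟨?_, fun t' => ?_⟩
    · rw [e1, e2, utility_zero]
    · rw [e1, e2, e1, e2]

end H70VM
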