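import Pool.Agent.H70VM.Outcome

/-!
# The externality mechanism
-/

namespace H70VM

open Finset

variable {n m : ℕ}

/-- The choice of agent `k ∈ A`. -/
noncomputable def choice2 (A : Finset (Fin n)) (θ : Profile n m) (k : Fin n) :
    Option (ℝ × (Fin n → Fin m → ℝ)) :=
  bestOf (XA A) ((toEco θ).ext A k) (fun z => cv (θ k).rr (z k)) (θ k).B

theorem choice2_spec (A : Finset (Fin n)) (θ : Profile n m) (k : Fin n) :
    Best (XA A) ((toEco θ).ext A k) (fun z => cv (θ k).rr (z k)) (θ k).B (choice2 A θ k) :=
  bestOf_spec (exists_best (isCompact_XA A) (continuousOn_ext _ k)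
    ((continuous_cv _).comp (continuous_apply k)).continuousOn _)

open Classical in
/-- The allocation. -/
noncomputable def alloc2 (A : Finset (Fin n)) (θ : Profile n m) (k : Fin n) : Fin m → ℝ :=
  if k ∈ A then allocOf (θ k) ((toEco θ).ext A k) (fun z => z k) (choice2 A θ k) else fun _ => 0

open Classical in
/-- The payments. -/
noncomputable def pay2 (A : Finset (Fin n)) (θ : Profile n m) (k : Fin n) : ℝ :=
  if k ∈ A then payOf (choice2 A θ k) else 0

theorem pay2_nonneg (A : Finset (Fin n)) (θ : Profile n m) (k : Fin n) : 0 ≤ pay2 A θ k := by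
  unfold pay2
  split_ifs
  · exact payOf_nonneg (choice2_spec A θ k)
  · exact le_refl _

theorem alloc2_nonneg (A : Finset (Fin n)) (θ : Profile n m) (k : Fin n) (j : Fin m) :
    0 ≤ alloc2 A θ k j := by
  unfold alloc2
  split_ifs with hk
  · have h := choice2_spec A θ k
    cases ho : choice2 A θ k with
    | none => simp [allocOf]
    | some p =>
      obtain ⟨b, z⟩ := p
      rw [ho] at h
      simp only [allocOf]
      exact deliver_nonneg _ (Real.exp_pos _).le (h.2.2.1.1 k) (XA_le_one h.2.2.1 k) j
  · exact le_refl _

theorem alloc2_le (A : Finset (Fin n)) (θ : Profile n m) {x : Fin n → Fin m → ℝ}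
    (hx : (toEco θ).IsOpt A x) (k : Fin n) (j : Fin m) : alloc2 A θ k j ≤ x k j := by
  unfold alloc2
  split_ifs with hk
  · have h := choice2_spec A θ k
    cases ho : choice2 A θ k with
    | none => simpa [allocOf] using hx.1.1 k j
    | some p =>
      obtain ⟨b, z⟩ := p
      rw [ho] at h
      simp only [allocOf]
      by_cases hr : 0 < (θ k).rr j
      · have h1 := own_le hk hx h (j := j) hr
        have h2 := (deliver_le (θ k) (Real.exp_pos (-(2 * (toEco θ).ext A k z / b))).le
          (fac_le_one h.1 (ext_nonneg _ h.2.2.1)) (h.2.2.1.1 k) j).2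
        exact h2.trans h1
      · unfold deliver
        rw [if_neg hr]
        exact hx.1.1 k j
  · exact hx.1.1 k j

/-- The externality mechanism for the set `A`. -/
noncomputable def mech2 (A : Finset (Fin n)) : Mechanism n m where
  alloc := alloc2 A
  pay := pay2 A
  feasible := fun θ => by
    obtain ⟨x, hx⟩ := exists_isOpt (toEco θ) A
    exact ⟨alloc2_nonneg A θ, fun j =>
      (Finset.sum_le_sum fun k _ => alloc2_le A θ hx k j).trans (hx.1.2.2 j)⟩

theorem ext_update (A : Finset (Fin n)) (θ : Profile n m) (k : Fin n) (t' : AgentType m) :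
    (toEco (Function.update θ k t')).ext A k = (toEco θ).ext A k := by
  refine ext_congr ?_ ?_
  · intro l hl
    simp [toEco, Function.update_of_ne hl]
  · intro l hl
    simp [toEco, Function.update_of_ne hl]

theorem mech2_truthful (A : Finset (Fin n)) : (mech2 A : Mechanism n m).Truthful := by
  intro θ k
  by_cases hk : k ∈ A
  · have key := fun t' : AgentType m => outcome_truthful (θ k) t'
      (Z := XA A) (E := (toEco θ).ext A k) (β := fun z => z k)
      (fun z hz => ext_nonneg _ hz) (fun z hz => hz.1 k) (fun z hz => XA_le_one hz k)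
      (choice2_spec A θ k)
      (o' := choice2 A (Function.update θ k t') k) (by
        have h := choice2_spec A (Function.update θ k t') k
        rw [ext_update] at h
        simpa using h)
    have e1 : (mech2 A).alloc θ k = allocOf (θ k) ((toEco θ).ext A k) (fun z => z k)
        (choice2 A θ k) := by
      show alloc2 A θ k = _
      unfold alloc2
      rw [if_pos hk]
    have e2 : (mech2 A).pay θ k = payOf (choice2 A θ k) := by
      show pay2 A θ k = _
      unfold pay2
      rw [if_pos hk]
    rw [e1, e2]
    refine ⟨(key (θ k)).1, fun t' => ?_⟩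
    have e3 : (mech2 A).alloc (Function.update θ k t') k = allocOf t' ((toEco θ).ext A k)
        (fun z => z k) (choice2 A (Function.update θ k t') k) := by
      show alloc2 A _ k = _
      unfold alloc2
      rw [if_pos hk, ext_update, Function.update_self]
    have e4 : (mech2 A).pay (Function.update θ k t') k =
        payOf (choice2 A (Function.update θ k t') k) := by
      show pay2 A _ k = _
      unfold pay2
      rw [if_pos hk]
    rw [e3, e4]
    exact (key t').2
  · have e1 : ∀ θ' : Profile n m, (mech2 A).alloc θ' k = fun _ => 0 := by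
      intro θ'
      show alloc2 A θ' k = _
      unfold alloc2
      rw [if_neg hk]
    have e2 : ∀ θ' : Profile n m, (mech2 A).pay θ' k = 0 := by
      intro θ'
      show pay2 A θ' k = _
      unfold pay2
      rw [if_neg hk]
    refine ⟨?_, fun t' => ?_⟩
    · rw [e1, e2, utility_zero]
    · rw [e1, e2, e1, e2]

/-- The revenue from the agent `k`: if the bundle `S` of `k` has price at most `P/32` for the
prices of the other agents of `A`, and value at least `P`, then `k` pays at least `P/4`. -/
theorem pay2_lower (A : Finset (Fin n)) (θ : Profile n m) {k : Fin n} (hk : k ∈ A)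
    {xG : Fin n → Fin m → ℝ} (hxG : (toEco θ).IsOpt (A.erase k) xG) {S : Fin m → ℝ}
    (hS0 : ∀ j, 0 ≤ S j) (hS1 : ∀ j, S j ≤ 1) {P : ℝ} (hPB : P ≤ (θ k).B)
    (hprice : ∑ j, S j * price (toEco θ) (A.erase k) xG j ≤ P / 32)
    (hval : P ≤ ∑ j, (θ k).rr j * S j) : P / 4 ≤ pay2 A θ k := by
  obtain ⟨z, hz, h1, h2⟩ := ext_option hk hxG hS0 hS1
  unfold pay2
  rw [if_pos hk]
  refine best_quarter (choice2_spec A θ k) hPB hz ?_ ?_
  · refine h1.trans ?_
    have e1 : ∑ j, 2 * S j * price (toEco θ) (A.erase k) xG j =
        2 * ∑ j, S j * price (toEco θ) (A.erase k) xG j := by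
      rw [Finset.mul_sum]
      exact Finset.sum_congr rfl fun j _ => by ring
    rw [e1]
    linarith
  · refine le_trans ?_ h2
    have e2 : ∑ j, 7 * ((toEco θ).r k j * S j) / 16 = 7 * (∑ j, (θ k).rr j * S j) / 16 := by
      rw [Finset.mul_sum, Finset.sum_div]
      rfl
    rw [e2]
    linarith

end H70VM
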