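import Pool.Agent.H70VM.M1

/-!
# The analysis
-/

namespace H70VM

open Finset

variable {n m : ℕ}

/-- The value of the bundle, in money. -/
noncomputable def RR (θ : Profile n m) (x : Fin n → Fin m → ℝ) (i : Fin n) : ℝ :=
  ∑ j, (θ i).rr j * x i j

/-- The liquid value of agent `i`. -/
noncomputable def LL (θ : Profile n m) (x : Fin n → Fin m → ℝ) (i : Fin n) : ℝ :=
  min (θ i).B (RR θ x i)

open Classical in
/-- The discount of agent `i`. -/
noncomputable def cc (θ : Profile n m) (x : Fin n → Fin m → ℝ) (i : Fin n) : ℝ :=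
  if RR θ x i ≤ (θ i).B then 1 else (θ i).B / RR θ x i

theorem liquid_eq (θ : Profile n m) (x : Fin n → Fin m → ℝ) : liquid θ x = ∑ i, LL θ x i := by
  unfold liquid LL RR
  refine Finset.sum_congr rfl fun i _ => ?_
  rw [(θ i).value_eq, mul_div_cancel_left₀ _ (θ i).τ_pos.ne']

theorem bddAbove_liquid (θ : Profile n m) :
    BddAbove {w | ∃ x, IsAllocation x ∧ w = liquid θ x} := by
  refine ⟨∑ i, (θ i).B, ?_⟩
  rintro w ⟨x, -, rfl⟩
  exact Finset.sum_le_sum fun i _ => min_le_left _ _

theorem liquid_le_OPT (θ : Profile n m) {x : Fin n → Fin m → ℝ} (hx : IsAllocation x) :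
    liquid θ x ≤ OPT θ :=
  le_csSup (bddAbove_liquid θ) ⟨x, hx, rfl⟩

theorem OPT_nonneg (θ : Profile n m) : 0 ≤ OPT θ := by
  refine le_trans ?_ (liquid_le_OPT θ (x := fun _ _ => 0) ⟨fun _ _ => le_refl _, fun j => by simp⟩)
  unfold liquid AgentType.value
  refine Finset.sum_nonneg fun i _ => ?_
  have := (θ i).B_pos.le
  simpa using this

theorem sum_priceG_le (Gs : Finset (Fin n)) (θ : Profile n m) :
    ∑ j, priceG Gs θ j ≤ OPT θ := by
  rw [priceG_eq]
  have hx := (xopt_spec Gs θ).1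
  refine (price_sum_le hx).trans ?_
  refine le_trans (le_of_eq ?_) (liquid_le_OPT θ (x := xopt Gs θ) ⟨hx.1, hx.2.2⟩)
  rw [liquid_eq]
  rfl

section cc

variable (θ : Profile n m) {x : Fin n → Fin m → ℝ} (hx : IsAllocation x)

include hx

theorem x_le_one (i : Fin n) (j : Fin m) : x i j ≤ 1 :=
  (Finset.single_le_sum (f := fun i => x i j) (fun l _ => hx.1 l j) (Finset.mem_univ i)).trans
    (hx.2 j)

theorem RR_nonneg (i : Fin n) : 0 ≤ RR θ x i :=
  Finset.sum_nonneg fun j _ => mul_nonneg ((θ i).rr_nonneg j) (hx.1 i j)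

omit hx in
theorem cc_bounds (i : Fin n) : 0 ≤ cc θ x i ∧ cc θ x i ≤ 1 := by
  have hB := (θ i).B_pos
  unfold cc
  split_ifs with h
  · exact ⟨zero_le_one, le_refl _⟩
  · have h1 := not_le.mp h
    have h2 : 0 < RR θ x i := hB.trans h1
    exact ⟨by positivity, by rw [div_le_one h2]; exact h1.le⟩

omit hx in
theorem cc_mul (i : Fin n) : cc θ x i * RR θ x i = LL θ x i := by
  have hB := (θ i).B_pos
  unfold cc LL
  split_ifs with h
  · rw [one_mul, min_eq_right h]
  · have h1 := not_le.mp h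
    have h2 : 0 < RR θ x i := hB.trans h1
    rw [min_eq_left h1.le, div_mul_cancel₀ _ h2.ne']

/-- The mass of agent `i` on item `j`. -/
noncomputable def mass (θ : Profile n m) (x : Fin n → Fin m → ℝ) (i : Fin n) (j : Fin m) : ℝ :=
  cc θ x i * (θ i).rr j * x i j

omit hx in
theorem sum_mass (i : Fin n) : ∑ j, mass θ x i j = LL θ x i := by
  rw [← cc_mul]
  unfold mass RR
  rw [Finset.mul_sum]
  exact Finset.sum_congr rfl fun j _ => by ring

theorem mass_nonneg (i : Fin n) (j : Fin m) : 0 ≤ mass θ x i j :=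
  mul_nonneg (mul_nonneg (cc_bounds θ i).1 ((θ i).rr_nonneg j)) (hx.1 i j)

theorem mass_le (i : Fin n) (j : Fin m) : mass θ x i j ≤ (θ i).rr j * x i j := by
  unfold mass
  have h1 := (cc_bounds θ (x := x) i).2
  have h2 := mul_nonneg ((θ i).rr_nonneg j) (hx.1 i j)
  nlinarith

theorem sum_mass_filter_le (i : Fin n) (D : Finset (Fin m)) : ∑ j ∈ D, mass θ x i j ≤ (θ i).B := by
  refine (Finset.sum_le_univ_sum_of_nonneg (mass_nonneg θ hx i)).trans ?_
  rw [sum_mass]
  exact min_le_left _ _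

end cc

open Classical in
/-- The underpriced items. -/
noncomputable def DD (Gs : Finset (Fin n)) (θ : Profile n m) (x : Fin n → Fin m → ℝ)
    (i : Fin n) : Finset (Fin m) :=
  Finset.univ.filter fun j => 32 * priceG Gs θ j < cc θ x i * (θ i).rr j

open Classical in
/-- The affordable items which are available until the end. -/
noncomputable def WW (Gs : Finset (Fin n)) (θ : Profile n m) (x : Fin n → Fin m → ℝ)
    (i : Fin n) : Finset (Fin m) :=
  Finset.univ.filter fun j => 1 / 2 < supply (post Gs θ) Gsᶜ θ n j ∧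
    post Gs θ j ≤ cc θ x i * (θ i).rr j / 8

theorem underpriced (Gs : Finset (Fin n)) (θ : Profile n m) {x : Fin n → Fin m → ℝ}
    (hx : IsAllocation x) {i : Fin n} (hi : i ∉ Gs) :
    (∑ j ∈ DD Gs θ x i, mass θ x i j) / 4 ≤ pay2 (insert i Gs) θ i := by
  have hopt : (toEco θ).IsOpt ((insert i Gs).erase i) (xopt Gs θ) := by
    rw [Finset.erase_insert hi]
    exact xopt_spec Gs θ
  refine pay2_lower (insert i Gs) θ (Finset.mem_insert_self i Gs) hopt
    (S := fun j => if j ∈ DD Gs θ x i then x i j else 0) ?_ ?_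
    (sum_mass_filter_le θ hx i _) ?_ ?_
  · intro j
    split_ifs
    · exact hx.1 i j
    · exact le_refl _
  · intro j
    split_ifs
    · exact x_le_one hx i j
    · exact zero_le_one
  · rw [Finset.erase_insert hi, ← priceG_eq]
    have e1 : ∀ j, (if j ∈ DD Gs θ x i then x i j else 0) * priceG Gs θ j =
        if j ∈ DD Gs θ x i then x i j * priceG Gs θ j else 0 := by
      intro j
      split_ifs <;> ring
    rw [Finset.sum_congr rfl fun j _ => e1 j, Finset.sum_ite_mem, Finset.univ_inter,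
      Finset.sum_div]
    refine Finset.sum_le_sum fun j hj => ?_
    have h1 : 32 * priceG Gs θ j < cc θ x i * (θ i).rr j := (Finset.mem_filter.mp hj).2
    have h2 := mul_le_mul_of_nonneg_right h1.le (hx.1 i j)
    unfold mass
    linarith
  · have e1 : ∀ j, (θ i).rr j * (if j ∈ DD Gs θ x i then x i j else 0) =
        if j ∈ DD Gs θ x i then (θ i).rr j * x i j else 0 := by
      intro j
      split_ifs <;> ring
    rw [Finset.sum_congr rfl fun j _ => e1 j, Finset.sum_ite_mem, Finset.univ_inter]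
    exact Finset.sum_le_sum fun j _ => mass_le θ hx i j

theorem affordable (Gs : Finset (Fin n)) (θ : Profile n m) {x : Fin n → Fin m → ℝ}
    (hx : IsAllocation x) {i : Fin n} (hi : i ∈ Gsᶜ) :
    (∑ j ∈ WW Gs θ x i, mass θ x i j) / 4 ≤ pay1 (post Gs θ) Gsᶜ θ i := by
  unfold pay1
  rw [if_pos hi]
  refine pay_lower1 (θ i) (S := fun j => if j ∈ WW Gs θ x i then x i j / 2 else 0) ?_ ?_
    (sum_mass_filter_le θ hx i _) ?_ ?_
  · intro j
    split_ifs
    · have := hx.1 i j
      linarith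
    · exact le_refl _
  · intro j
    split_ifs with hj
    · have h1 := (Finset.mem_filter.mp hj).2.1
      have h2 := supply_antitone (F := Gsᶜ) (θ := θ) (post_nonneg Gs θ) j i.2.le
      have h3 := x_le_one hx i j
      simp only at h2
      linarith
    · exact (supply_bounds (F := Gsᶜ) (θ := θ) (post_nonneg Gs θ) i).1 j
  · have e1 : ∀ j, post Gs θ j * (if j ∈ WW Gs θ x i then x i j / 2 else 0) =
        if j ∈ WW Gs θ x i then post Gs θ j * (x i j / 2) else 0 := by
      intro j
      split_ifs <;> ring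
    rw [Finset.sum_congr rfl fun j _ => e1 j, Finset.sum_ite_mem, Finset.univ_inter,
      Finset.sum_div]
    refine Finset.sum_le_sum fun j hj => ?_
    have h1 := (Finset.mem_filter.mp hj).2.2
    have h2 := mul_le_mul_of_nonneg_right h1 (hx.1 i j)
    unfold mass
    linarith
  · unfold cv
    have e1 : ∀ j, (θ i).rr j * u (if j ∈ WW Gs θ x i then x i j / 2 else 0) =
        if j ∈ WW Gs θ x i then (θ i).rr j * u (x i j / 2) else 0 := by
      intro j
      split_ifs
      · rfl
      · rw [u_zero, mul_zero]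
    rw [Finset.sum_congr rfl fun j _ => e1 j, Finset.sum_ite_mem, Finset.univ_inter,
      Finset.mul_sum, Finset.sum_div]
    refine Finset.sum_le_sum fun j _ => ?_
    have h1 := mass_le θ hx i j
    have h2 := mul_le_mul_of_nonneg_left (u_half (hx.1 i j) (x_le_one hx i j))
      ((θ i).rr_nonneg j)
    linarith

open Classical in
/-- Sold out items carry revenue. -/
theorem soldout (Gs : Finset (Fin n)) (θ : Profile n m) :
    ∑ j, (if supply (post Gs θ) Gsᶜ θ n j ≤ 1 / 2 then post Gs θ j else 0) ≤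
      2 * (mech1 Gs).revenue θ := by
  have h1 : ∀ j, (if supply (post Gs θ) Gsᶜ θ n j ≤ 1 / 2 then post Gs θ j else 0) ≤
      2 * ∑ i, post Gs θ j * alloc1 (post Gs θ) Gsᶜ θ i j := by
    intro j
    have h2 := supply_final (π := post Gs θ) (F := Gsᶜ) (θ := θ) j
    have h3 := post_nonneg Gs θ j
    have h4 := (supply_bounds (F := Gsᶜ) (θ := θ) (post_nonneg Gs θ) n).2 j
    rw [← Finset.mul_sum]
    split_ifs with h
    · have h5 : 1 / 2 ≤ ∑ i, alloc1 (post Gs θ) Gsᶜ θ i j := by linarith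
      nlinarith
    · have h5 : 0 ≤ ∑ i, alloc1 (post Gs θ) Gsᶜ θ i j := by linarith
      positivity
  calc ∑ j, (if supply (post Gs θ) Gsᶜ θ n j ≤ 1 / 2 then post Gs θ j else 0)
      ≤ ∑ j, 2 * ∑ i, post Gs θ j * alloc1 (post Gs θ) Gsᶜ θ i j :=
        Finset.sum_le_sum fun j _ => h1 j
    _ = 2 * ∑ i, ∑ j, post Gs θ j * alloc1 (post Gs θ) Gsᶜ θ i j := by
        rw [← Finset.mul_sum, Finset.sum_comm]
    _ ≤ 2 * ∑ i, pay1 (post Gs θ) Gsᶜ θ i := by
        refine mul_le_mul_of_nonneg_left ?_ (by norm_num)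
        exact Finset.sum_le_sum fun i _ => pay1_price (post_nonneg Gs θ) i
    _ = _ := rfl

/-- The bound for one sample. -/
theorem one_sample (Gs : Finset (Fin n)) (θ : Profile n m) {x : Fin n → Fin m → ℝ}
    (hx : IsAllocation x) :
    ∑ i ∈ Gsᶜ, LL θ x i ≤ 4 * ∑ i ∈ Gsᶜ, pay2 (insert i Gs) θ i +
      2052 * (mech1 Gs).revenue θ + OPT θ / 4 := by
  classical
  have hpt : ∀ i j, mass θ x i j ≤
      (if j ∈ DD Gs θ x i then mass θ x i j else 0) +
      (if j ∈ WW Gs θ x i then mass θ x i j else 0) + 8 * post Gs θ j * x i j +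
      (if supply (post Gs θ) Gsᶜ θ n j ≤ 1 / 2 then 1024 * post Gs θ j else 0) * x i j := by
    intro i j
    have h0 := mass_nonneg θ hx i j
    have h1 := post_nonneg Gs θ j
    have h2 := hx.1 i j
    have h3 : 0 ≤ (if supply (post Gs θ) Gsᶜ θ n j ≤ 1 / 2 then 1024 * post Gs θ j else 0) *
        x i j := by
      split_ifs
      · positivity
      · simp
    have h4 : 0 ≤ 8 * post Gs θ j * x i j := by positivity
    by_cases hD : j ∈ DD Gs θ x i
    · rw [if_pos hD]
      have h5 : 0 ≤ (if j ∈ WW Gs θ x i then mass θ x i j else 0) := by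
        split_ifs
        · exact h0
        · exact le_refl _
      linarith
    · rw [if_neg hD]
      by_cases hW : j ∈ WW Gs θ x i
      · rw [if_pos hW]
        linarith
      · rw [if_neg hW]
        have hD' : cc θ x i * (θ i).rr j ≤ 32 * priceG Gs θ j := by
          by_contra h
          exact hD (Finset.mem_filter.mpr ⟨Finset.mem_univ j, not_le.mp h⟩)
        by_cases hs : supply (post Gs θ) Gsᶜ θ n j ≤ 1 / 2
        · rw [if_pos hs]
          have h6 := mul_le_mul_of_nonneg_right hD' h2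
          have h7 : priceG Gs θ j = 32 * post Gs θ j := by
            unfold post
            ring
          rw [h7] at h6
          unfold mass at h0 ⊢
          linarith
        · have h8 : cc θ x i * (θ i).rr j / 8 < post Gs θ j := by
            by_contra h
            exact hW (Finset.mem_filter.mpr ⟨Finset.mem_univ j, not_le.mp hs, not_lt.mp h⟩)
          have h9 := mul_le_mul_of_nonneg_right h8.le h2
          unfold mass at h0 ⊢
          linarith
  have hsum : ∑ i ∈ Gsᶜ, LL θ x i ≤ ∑ i ∈ Gsᶜ, (4 * pay2 (insert i Gs) θ i +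
      4 * pay1 (post Gs θ) Gsᶜ θ i + ∑ j, (8 * post Gs θ j +
      (if supply (post Gs θ) Gsᶜ θ n j ≤ 1 / 2 then 1024 * post Gs θ j else 0)) * x i j) := by
    refine Finset.sum_le_sum fun i hi => ?_
    rw [← sum_mass]
    refine (Finset.sum_le_sum fun j _ => hpt i j).trans ?_
    have hD := underpriced Gs θ hx (Finset.mem_compl.mp hi)
    have hW := affordable Gs θ hx hi
    have e1 : ∑ j, ((if j ∈ DD Gs θ x i then mass θ x i j else 0) +
        (if j ∈ WW Gs θ x i then mass θ x i j else 0) + 8 * post Gs θ j * x i j +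
        (if supply (post Gs θ) Gsᶜ θ n j ≤ 1 / 2 then 1024 * post Gs θ j else 0) * x i j) =
        ∑ j ∈ DD Gs θ x i, mass θ x i j + ∑ j ∈ WW Gs θ x i, mass θ x i j +
        ∑ j, (8 * post Gs θ j +
      (if supply (post Gs θ) Gsᶜ θ n j ≤ 1 / 2 then 1024 * post Gs θ j else 0)) * x i j := by
      rw [Finset.sum_add_distrib, Finset.sum_add_distrib, Finset.sum_add_distrib,
        Finset.sum_ite_mem, Finset.sum_ite_mem, Finset.univ_inter, Finset.univ_inter,
        add_assoc, ← Finset.sum_add_distrib]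
      congr 1
      exact Finset.sum_congr rfl fun j _ => by ring
    rw [e1]
    linarith
  refine hsum.trans ?_
  rw [Finset.sum_add_distrib, Finset.sum_add_distrib, ← Finset.mul_sum, ← Finset.mul_sum]
  have h1 : ∑ i ∈ Gsᶜ, pay1 (post Gs θ) Gsᶜ θ i ≤ (mech1 Gs).revenue θ :=
    Finset.sum_le_univ_sum_of_nonneg fun i => pay1_nonneg i
  have h2 : ∑ i ∈ Gsᶜ, ∑ j, (8 * post Gs θ j +
      (if supply (post Gs θ) Gsᶜ θ n j ≤ 1 / 2 then 1024 * post Gs θ j else 0)) * x i j ≤
      ∑ j, (8 * post Gs θ j +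
      (if supply (post Gs θ) Gsᶜ θ n j ≤ 1 / 2 then 1024 * post Gs θ j else 0)) := by
    rw [Finset.sum_comm]
    refine Finset.sum_le_sum fun j _ => ?_
    rw [← Finset.mul_sum]
    have h3 : ∑ i ∈ Gsᶜ, x i j ≤ 1 :=
      (Finset.sum_le_univ_sum_of_nonneg fun i => hx.1 i j).trans (hx.2 j)
    have h4 : 0 ≤ 8 * post Gs θ j +
      (if supply (post Gs θ) Gsᶜ θ n j ≤ 1 / 2 then 1024 * post Gs θ j else 0) := by
      have := post_nonneg Gs θ j
      split_ifs <;> linarith
    calc _ ≤ (8 * post Gs θ j +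
      (if supply (post Gs θ) Gsᶜ θ n j ≤ 1 / 2 then 1024 * post Gs θ j else 0)) * 1 :=
        mul_le_mul_of_nonneg_left h3 h4
      _ = _ := mul_one _
  have h5 : ∑ j, (8 * post Gs θ j +
      (if supply (post Gs θ) Gsᶜ θ n j ≤ 1 / 2 then 1024 * post Gs θ j else 0)) =
      8 * ∑ j, post Gs θ j +
      1024 * ∑ j, (if supply (post Gs θ) Gsᶜ θ n j ≤ 1 / 2 then post Gs θ j else 0) := by
    rw [Finset.sum_add_distrib, ← Finset.mul_sum, Finset.mul_sum (s := Finset.univ)
      (f := fun j => if supply (post Gs θ) Gsᶜ θ n j ≤ 1 / 2 then post Gs θ j else 0)]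
    congr 1
    refine Finset.sum_congr rfl fun j _ => ?_
    split_ifs <;> ring
  have h6 : ∑ j, post Gs θ j = (∑ j, priceG Gs θ j) / 32 := by
    unfold post
    rw [Finset.sum_div]
  have h7 := sum_priceG_le Gs θ
  have h8 := soldout Gs θ
  rw [h5] at h2
  rw [h6] at h2
  linarith

/-! ### Averaging over the samples -/

theorem sum_compl (f : Fin n → ℝ) :
    2 * ∑ Gs : Finset (Fin n), ∑ i ∈ Gsᶜ, f i = 2 ^ n * ∑ i, f i := by
  have h1 : ∑ Gs : Finset (Fin n), ∑ i ∈ Gsᶜ, f i = ∑ Gs : Finset (Fin n), ∑ i ∈ Gs, f i := by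
    refine Finset.sum_bij' (fun Gs _ => Gsᶜ) (fun Gs _ => Gsᶜ) ?_ ?_ ?_ ?_ ?_ <;> simp
  have h2 : ∑ Gs : Finset (Fin n), ∑ i ∈ Gs, f i + ∑ Gs : Finset (Fin n), ∑ i ∈ Gsᶜ, f i =
      2 ^ n * ∑ i, f i := by
    rw [← Finset.sum_add_distrib]
    have h3 : ∀ Gs : Finset (Fin n), ∑ i ∈ Gs, f i + ∑ i ∈ Gsᶜ, f i = ∑ i, f i := fun Gs =>
      Finset.sum_add_sum_compl Gs f
    rw [Finset.sum_congr rfl fun Gs _ => h3 Gs, Finset.sum_const, Finset.card_univ,
      Fintype.card_finset, Fintype.card_fin, nsmul_eq_mul]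
    push_cast
    rfl
  linarith

theorem sum_insert_le (f : Finset (Fin n) → Fin n → ℝ) (hf : ∀ A i, 0 ≤ f A i) :
    ∑ Gs : Finset (Fin n), ∑ i ∈ Gsᶜ, f (insert i Gs) i ≤ ∑ A : Finset (Fin n), ∑ i, f A i := by
  have h1 : ∀ Gs : Finset (Fin n), ∑ i ∈ Gsᶜ, f (insert i Gs) i =
      ∑ i, if i ∈ Gsᶜ then f (insert i Gs) i else 0 := by
    intro Gs
    rw [Finset.sum_ite_mem, Finset.univ_inter]
  rw [Finset.sum_congr rfl fun Gs _ => h1 Gs, Finset.sum_comm, Finset.sum_comm (s := Finset.univ)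
    (t := Finset.univ) (f := fun A i => f A i)]
  refine Finset.sum_le_sum fun i _ => ?_
  rw [← Finset.sum_filter]
  have h2 : ∑ Gs ∈ Finset.univ.filter (fun Gs : Finset (Fin n) => i ∈ Gsᶜ), f (insert i Gs) i =
      ∑ A ∈ Finset.univ.filter (fun A : Finset (Fin n) => i ∈ A), f A i := by
    refine Finset.sum_bij' (fun Gs _ => insert i Gs) (fun A _ => A.erase i) ?_ ?_ ?_ ?_ ?_
    · intro Gs _
      simp
    · intro A _
      simp
    · intro Gs hGs
      have : i ∉ Gs := by simpa using hGs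
      exact Finset.erase_insert this
    · intro A hA
      have : i ∈ A := by simpa using hA
      exact Finset.insert_erase this
    · intro Gs _
      rfl
  rw [h2]
  exact Finset.sum_le_univ_sum_of_nonneg fun A => hf A i

/-- The bound on average. -/
theorem average (θ : Profile n m) {x : Fin n → Fin m → ℝ} (hx : IsAllocation x) :
    2 ^ n * liquid θ x ≤ 2 * (4 * ∑ A : Finset (Fin n), (mech2 A).revenue θ +
      2052 * ∑ Gs : Finset (Fin n), (mech1 Gs).revenue θ + 2 ^ n * (OPT θ / 4)) := by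
  rw [liquid_eq, ← sum_compl]
  refine mul_le_mul_of_nonneg_left ?_ (by norm_num)
  refine (Finset.sum_le_sum fun Gs _ => one_sample Gs θ hx).trans ?_
  rw [Finset.sum_add_distrib, Finset.sum_add_distrib, ← Finset.mul_sum, ← Finset.mul_sum,
    Finset.sum_const, Finset.card_univ, Fintype.card_finset, Fintype.card_fin, nsmul_eq_mul]
  have h1 := sum_insert_le (fun A i => pay2 A θ i) (fun A i => pay2_nonneg A θ i)
  have h2 : ∑ A : Finset (Fin n), ∑ i, pay2 A θ i = ∑ A : Finset (Fin n), (mech2 A).revenue θ :=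
    rfl
  rw [h2] at h1
  push_cast
  linarith

/-- The random mechanism. -/
noncomputable def mechR (n m : ℕ) : RandMechanism n m where
  Ω := Bool × Finset (Fin n)
  fin := inferInstance
  prob := fun _ => 1 / (2 * 2 ^ n)
  prob_nonneg := fun _ => by positivity
  prob_sum := by
    rw [Finset.sum_const, Finset.card_univ, Fintype.card_prod, Fintype.card_bool,
      Fintype.card_finset, Fintype.card_fin, nsmul_eq_mul]
    push_cast
    field_simp
  mech := fun ω => if ω.1 then mech1 ω.2 else mech2 ω.2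

theorem mechR_truthful (n m : ℕ) : (mechR n m).Truthful := by
  rintro ⟨b, A⟩
  cases b
  · exact mech2_truthful A
  · exact mech1_truthful A

theorem mechR_revenue (θ : Profile n m) : (mechR n m).revenue θ =
    (∑ A : Finset (Fin n), (mech2 A).revenue θ +
      ∑ Gs : Finset (Fin n), (mech1 Gs).revenue θ) / (2 * 2 ^ n) := by
  have h1 : (mechR n m).revenue θ = ∑ ω : Bool × Finset (Fin n), 1 / (2 * 2 ^ n) *
      ((if ω.1 then mech1 ω.2 else mech2 ω.2 : Mechanism n m)).revenue θ := rfl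
  rw [h1, ← Finset.mul_sum, Fintype.sum_prod_type, Fintype.sum_bool]
  simp only [if_true, Bool.false_eq_true, if_false]
  rw [one_div, inv_mul_eq_div, add_comm]

theorem mechR_bound (θ : Profile n m) : OPT θ ≤ 16416 * (mechR n m).revenue θ := by
  have h1 : OPT θ ≤ 8208 * (mechR n m).revenue θ + OPT θ / 2 := by
    refine csSup_le ⟨_, ⟨fun _ _ => 0, ⟨fun _ _ => le_refl _, fun j => by simp⟩, rfl⟩⟩ ?_
    rintro w ⟨x, hx, rfl⟩
    have h2 := average θ hx
    rw [mechR_revenue]
    have h3 : (0 : ℝ) < 2 ^ n := by positivity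
    have h4 : 0 ≤ ∑ A : Finset (Fin n), (mech2 A : Mechanism n m).revenue θ :=
      Finset.sum_nonneg fun A _ => Finset.sum_nonneg fun i _ => pay2_nonneg A θ i
    have h5 : 8208 * ((∑ A : Finset (Fin n), (mech2 A).revenue θ +
      ∑ Gs : Finset (Fin n), (mech1 Gs).revenue θ) / (2 * 2 ^ n)) + OPT θ / 2 =
      (4104 * (∑ A : Finset (Fin n), (mech2 A).revenue θ +
      ∑ Gs : Finset (Fin n), (mech1 Gs).revenue θ) + 2 ^ n * (OPT θ / 2)) / 2 ^ n := by
      field_simp
      ring
    rw [h5, le_div_iff₀ h3]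
    linarith
  linarith

end H70VM
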