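import Mathlib

/-!
# Value maximizers with private budgets and private target ratios: the problem
-/

namespace H70VM

open Finset

/-! ### The problem -/

/-- The private profile of an agent: values of the `m` items, budget, target return-on-spend ratio. -/
structure AgentType (m : ℕ) where
  v : Fin m → ℝ
  B : ℝ
  τ : ℝ
  v_nonneg : ∀ j, 0 ≤ v j
  B_pos : 0 < B
  τ_pos : 0 < τ

/-- A report (or true) profile of all `n` agents. -/
abbrev Profile (n m : ℕ) := Fin n → AgentType m

/-- Allocations of `m` divisible items of unit supply. -/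
def IsAllocation {n m : ℕ} (x : Fin n → Fin m → ℝ) : Prop :=
  (∀ i j, 0 ≤ x i j) ∧ ∀ j, ∑ i, x i j ≤ 1

/-- The additive value of a bundle. -/
def AgentType.value {m : ℕ} (t : AgentType m) (x : Fin m → ℝ) : ℝ := ∑ j, t.v j * x j

/-- The two constraints of a value maximizer: budget and return on spend. -/
def AgentType.Accepts {m : ℕ} (t : AgentType m) (x : Fin m → ℝ) (p : ℝ) : Prop :=
  p ≤ t.B ∧ t.τ * p ≤ t.value x

open Classical in
/-- The utility of an agent of type `t` who receives `x` and pays `p`; `⊥` is `-∞`. -/
noncomputable def AgentType.utility {m : ℕ} (t : AgentType m) (x : Fin m → ℝ) (p : ℝ) :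
    WithBot ℝ :=
  if t.Accepts x p then ((t.value x : ℝ) : WithBot ℝ) else ⊥

/-- A deterministic direct mechanism. -/
structure Mechanism (n m : ℕ) where
  alloc : Profile n m → Fin n → Fin m → ℝ
  pay : Profile n m → Fin n → ℝ
  feasible : ∀ θ, IsAllocation (alloc θ)

/-- Truthfulness: whatever the others report, the true profile maximizes the utility, and the
utility of a truthful agent is non-negative. -/
def Mechanism.Truthful {n m : ℕ} (M : Mechanism n m) : Prop :=
  ∀ (θ : Profile n m) (i : Fin n),
    (0 : WithBot ℝ) ≤ (θ i).utility (M.alloc θ i) (M.pay θ i) ∧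
    ∀ t' : AgentType m,
      (θ i).utility (M.alloc (Function.update θ i t') i) (M.pay (Function.update θ i t') i) ≤
        (θ i).utility (M.alloc θ i) (M.pay θ i)

/-- The revenue. -/
def Mechanism.revenue {n m : ℕ} (M : Mechanism n m) (θ : Profile n m) : ℝ := ∑ i, M.pay θ i

/-- A randomized mechanism: a random deterministic mechanism (finitely many outcomes of the random
bits suffice). -/
structure RandMechanism (n m : ℕ) where
  Ω : Type
  fin : Fintype Ω
  prob : Ω → ℝ
  prob_nonneg : ∀ ω, 0 ≤ prob ω
  prob_sum : ∑ ω, prob ω = 1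
  mech : Ω → Mechanism n m

attribute [instance] RandMechanism.fin

/-- Truthful for every realisation of the random bits. -/
def RandMechanism.Truthful {n m : ℕ} (M : RandMechanism n m) : Prop := ∀ ω, (M.mech ω).Truthful

/-- The expected revenue. -/
noncomputable def RandMechanism.revenue {n m : ℕ} (M : RandMechanism n m) (θ : Profile n m) : ℝ :=
  ∑ ω, M.prob ω * (M.mech ω).revenue θ

/-- The liquid value of an allocation: `∑ᵢ min (Bᵢ, vᵢ(x)/τᵢ)`. -/
noncomputable def liquid {n m : ℕ} (θ : Profile n m) (x : Fin n → Fin m → ℝ) : ℝ :=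
  ∑ i, min (θ i).B ((θ i).value (x i) / (θ i).τ)

/-- The first-best benchmark. -/
noncomputable def OPT {n m : ℕ} (θ : Profile n m) : ℝ :=
  sSup {w | ∃ x, IsAllocation x ∧ w = liquid θ x}

end H70VM
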