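import Pool.Agent.H70VM.Ext

/-!
# The outcome for one agent, and truthfulness
-/

namespace H70VM

open Finset

/-- Normalised values. -/
noncomputable def AgentType.rr {m : ℕ} (t : AgentType m) (j : Fin m) : ℝ := t.v j / t.τ

theorem AgentType.rr_nonneg {m : ℕ} (t : AgentType m) (j : Fin m) : 0 ≤ t.rr j :=
  div_nonneg (t.v_nonneg j) t.τ_pos.le

theorem AgentType.value_eq {m : ℕ} (t : AgentType m) (x : Fin m → ℝ) :
    t.value x = t.τ * ∑ j, t.rr j * x j := by
  unfold AgentType.value AgentType.rr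
  rw [Finset.mul_sum]
  refine Finset.sum_congr rfl fun j _ => ?_
  have := t.τ_pos.ne'
  field_simp

open Classical in
/-- The bundle delivered for the virtual bundle `S` with factor `f`. -/
noncomputable def deliver {m : ℕ} (t : AgentType m) (f : ℝ) (S : Fin m → ℝ) (j : Fin m) : ℝ :=
  if 0 < t.rr j then f * u (S j) else 0

/-- The bundle of a choice. -/
noncomputable def allocOf {m : ℕ} {α : Type} (t : AgentType m) (E : α → ℝ)
    (β : α → Fin m → ℝ) : Option (ℝ × α) → Fin m → ℝ
  | none => fun _ => 0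
  | some (b, z) => deliver t (Real.exp (-(2 * E z / b))) (β z)

section

variable {m : ℕ} {α : Type} {Z : Set α} {E : α → ℝ} {β : α → Fin m → ℝ}

theorem deliver_nonneg (t : AgentType m) {f : ℝ} (hf : 0 ≤ f) {S : Fin m → ℝ}
    (h0 : ∀ j, 0 ≤ S j) (h1 : ∀ j, S j ≤ 1) (j : Fin m) : 0 ≤ deliver t f S j := by
  unfold deliver
  split_ifs
  · exact mul_nonneg hf (u_nonneg (h0 j) (h1 j))
  · exact le_refl _

theorem deliver_le (t : AgentType m) {f : ℝ} (hf : 0 ≤ f) (hf1 : f ≤ 1) {S : Fin m → ℝ}
    (h0 : ∀ j, 0 ≤ S j) (j : Fin m) : deliver t f S j ≤ f * S j ∧ deliver t f S j ≤ S j := by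
  have h1 : f * S j ≤ S j := by
    have := mul_le_mul_of_nonneg_right hf1 (h0 j)
    linarith
  unfold deliver
  split_ifs
  · have h2 : f * u (S j) ≤ f * S j := mul_le_mul_of_nonneg_left u_le hf
    exact ⟨h2, h2.trans h1⟩
  · exact ⟨mul_nonneg hf (h0 j), h0 j⟩

theorem fac_le_one {b : ℝ} {z : α} (hb : 0 < b) (hE : 0 ≤ E z) :
    Real.exp (-(2 * E z / b)) ≤ 1 := by
  rw [Real.exp_le_one_iff]
  have : 0 ≤ 2 * E z / b := by positivity
  linarith

theorem value_allocOf (t : AgentType m) (o : Option (ℝ × α)) :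
    t.value (allocOf t E β o) = t.τ * valOf E (fun z => cv t.rr (β z)) o := by
  rw [t.value_eq]
  congr 1
  cases o with
  | none => simp [allocOf, valOf]
  | some p =>
    obtain ⟨b, z⟩ := p
    simp only [allocOf, valOf, cv, Finset.mul_sum]
    refine Finset.sum_congr rfl fun j _ => ?_
    unfold deliver
    split_ifs with h
    · ring
    · have h1 : t.rr j = 0 := le_antisymm (not_lt.mp h) (t.rr_nonneg j)
      rw [h1]
      ring

theorem accepts_allocOf (t : AgentType m) {o : Option (ℝ × α)}
    (ho : Best Z E (fun z => cv t.rr (β z)) t.B o) : t.Accepts (allocOf t E β o) (payOf o) := by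
  refine ⟨payOf_le_budget ho t.B_pos.le, ?_⟩
  rw [value_allocOf]
  exact mul_le_mul_of_nonneg_left (payOf_le_valOf ho) t.τ_pos.le

theorem outcome_truthful (t t' : AgentType m) (hE : ∀ z ∈ Z, 0 ≤ E z)
    (hβ0 : ∀ z ∈ Z, ∀ j, 0 ≤ β z j) (hβ1 : ∀ z ∈ Z, ∀ j, β z j ≤ 1) {o o' : Option (ℝ × α)}
    (ho : Best Z E (fun z => cv t.rr (β z)) t.B o)
    (ho' : Best Z E (fun z => cv t'.rr (β z)) t'.B o') :
    (0 : WithBot ℝ) ≤ t.utility (allocOf t E β o) (payOf o) ∧
    t.utility (allocOf t' E β o') (payOf o') ≤ t.utility (allocOf t E β o) (payOf o) := by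
  have h1 : t.utility (allocOf t E β o) (payOf o) = ((t.value (allocOf t E β o) : ℝ) : WithBot ℝ) := by
    unfold AgentType.utility
    rw [if_pos (accepts_allocOf t ho)]
  have h0 : 0 ≤ t.value (allocOf t E β o) := by
    rw [value_allocOf]
    exact mul_nonneg t.τ_pos.le ((payOf_nonneg ho).trans (payOf_le_valOf ho))
  rw [h1]
  refine ⟨by exact_mod_cast h0, ?_⟩
  unfold AgentType.utility
  split_ifs with hacc
  · refine WithBot.coe_le_coe.mpr ?_
    cases o' with
    | none =>
      refine le_trans (le_of_eq ?_) h0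
      simp [allocOf, AgentType.value]
    | some p =>
      obtain ⟨b', z'⟩ := p
      obtain ⟨hb', -, hz', -, -, -⟩ := ho'
      obtain ⟨hacc1, hacc2⟩ := hacc
      simp only [payOf] at hacc1 hacc2
      rw [t.value_eq] at hacc2
      rw [value_allocOf, t.value_eq]
      refine mul_le_mul_of_nonneg_left ?_ t.τ_pos.le
      refine best_truthful ho hE hb' hacc1 hz' (le_of_mul_le_mul_left hacc2 t.τ_pos) ?_
      simp only [allocOf, cv, Finset.mul_sum]
      refine Finset.sum_le_sum fun j _ => ?_
      have h2 : deliver t' (Real.exp (-(2 * E z' / b'))) (β z') j ≤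
          Real.exp (-(2 * E z' / b')) * u (β z' j) := by
        unfold deliver
        split_ifs
        · exact le_refl _
        · exact mul_nonneg (Real.exp_pos _).le (u_nonneg (hβ0 z' hz' j) (hβ1 z' hz' j))
      have h3 := mul_le_mul_of_nonneg_left h2 (t.rr_nonneg j)
      linarith
  · exact bot_le

/-- The utility of getting nothing for nothing is zero. -/
theorem utility_zero (t : AgentType m) : t.utility (fun _ => 0) 0 = 0 := by
  unfold AgentType.utility AgentType.Accepts AgentType.value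
  rw [if_pos]
  · simp
  · refine ⟨t.B_pos.le, ?_⟩
    simp

end

/-- The normalised economy of a profile. -/
noncomputable def toEco {n m : ℕ} (θ : Profile n m) : Eco n m where
  r := fun i => (θ i).rr
  B := fun i => (θ i).B
  r_nonneg := fun i j => (θ i).rr_nonneg j
  B_pos := fun i => (θ i).B_pos

end H70VM
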