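import Pool.Agent.H70VM.Compare

/-!
# First order conditions
-/

namespace H70VM

open Finset Filter Topology

variable {n m : ℕ} {e : Eco n m} {A : Finset (Fin n)}

/-- A right local maximum has non-positive derivative. -/
theorem deriv_le_of_right_max {f : ℝ → ℝ} {d : ℝ} (h : HasDerivAt f d 0)
    (hmax : ∀ᶠ ε in 𝓝[>] (0 : ℝ), f ε ≤ f 0) : d ≤ 0 := by
  have h1 := h.hasDerivWithinAt (s := Set.Ioi 0)
  rw [hasDerivWithinAt_iff_tendsto_slope' (by simp)] at h1
  refine le_of_tendsto h1 ?_
  filter_upwards [hmax, self_mem_nhdsWithin] with ε hε hpos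
  rw [slope_def_field]
  have hpos' : (0 : ℝ) < ε := hpos
  exact div_nonpos_of_nonpos_of_nonneg (by linarith) (by linarith)

/-- The directional condition. -/
theorem dir_le (F : Fin n → ℝ → ℝ) {α : Fin n → ℝ} {x : Fin n → Fin m → ℝ}
    (hF : ∀ i ∈ A, HasDerivAt (F i) (α i) (cv (e.r i) (x i)))
    (hmax : ∀ᶠ z in 𝓝[XA A] x, ∑ i ∈ A, F i (cv (e.r i) (z i)) ≤ ∑ i ∈ A, F i (cv (e.r i) (x i)))
    (d : Fin n → Fin m → ℝ)
    (hd : ∀ᶠ ε in 𝓝[>] (0 : ℝ), (fun i j => x i j + ε * d i j) ∈ XA A) :
    ∑ i ∈ A, α i * ∑ j, e.r i j * ((1 - x i j / 2) * d i j) ≤ 0 := by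
  have hcv : ∀ i, HasDerivAt (fun ε : ℝ => cv (e.r i) (fun j => x i j + ε * d i j))
      (∑ j, e.r i j * ((1 - x i j / 2) * d i j)) 0 := by
    intro i
    unfold cv
    refine HasDerivAt.fun_sum fun j _ => ?_
    refine HasDerivAt.const_mul _ ?_
    have h1 : HasDerivAt (fun ε : ℝ => x i j + ε * d i j) (d i j) 0 := by
      simpa using ((hasDerivAt_id' (0 : ℝ)).mul_const (d i j)).const_add (x i j)
    have h2 : HasDerivAt u (1 - x i j / 2) (x i j + 0 * d i j) := by
      simpa using hasDerivAt_u (x i j)
    exact h2.comp (0 : ℝ) h1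
  have hder : HasDerivAt (fun ε : ℝ => ∑ i ∈ A, F i (cv (e.r i) (fun j => x i j + ε * d i j)))
      (∑ i ∈ A, α i * ∑ j, e.r i j * ((1 - x i j / 2) * d i j)) 0 := by
    refine HasDerivAt.fun_sum fun i hi => ?_
    have h2 : HasDerivAt (F i) (α i) (cv (e.r i) (fun j => x i j + 0 * d i j)) := by
      simpa using hF i hi
    exact h2.comp (0 : ℝ) (hcv i)
  refine deriv_le_of_right_max hder ?_
  have hcont : Tendsto (fun ε : ℝ => (fun i j => x i j + ε * d i j : Fin n → Fin m → ℝ))
      (𝓝[>] 0) (𝓝[XA A] x) := by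
    refine tendsto_nhdsWithin_iff.mpr ⟨?_, hd⟩
    have hc : Continuous (fun ε : ℝ => (fun i j => x i j + ε * d i j : Fin n → Fin m → ℝ)) := by
      fun_prop
    have h3 := hc.tendsto 0
    simp only [zero_mul, add_zero] at h3
    exact h3.mono_left nhdsWithin_le_nhds
  have h4 := hcont.eventually hmax
  filter_upwards [h4] with ε hε
  simpa using hε

theorem foc_of_max (F : Fin n → ℝ → ℝ) {α : Fin n → ℝ} {x : Fin n → Fin m → ℝ} (hx : x ∈ XA A)
    (hF : ∀ i ∈ A, HasDerivAt (F i) (α i) (cv (e.r i) (x i))) (hα : ∀ i ∈ A, 0 < α i)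
    (hmax : ∀ᶠ z in 𝓝[XA A] x, ∑ i ∈ A, F i (cv (e.r i) (z i)) ≤
      ∑ i ∈ A, F i (cv (e.r i) (x i))) : FOC e A α x := by
  refine ⟨hx, ?_, ?_⟩
  · intro i hi i' hi' j hpos
    by_cases hii : i' = i
    · subst hii; exact le_refl _
    have h := dir_le F hF hmax
      (fun l j' => (if l = i' ∧ j' = j then 1 else 0) - (if l = i ∧ j' = j then 1 else 0)) ?_
    · have e1 : ∀ l ∈ A, α l * ∑ j', e.r l j' * ((1 - x l j' / 2) *
          ((if l = i' ∧ j' = j then 1 else 0) - (if l = i ∧ j' = j then 1 else 0))) =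
          (if l = i' then α l * (e.r l j * (1 - x l j / 2)) else 0) -
          (if l = i then α l * (e.r l j * (1 - x l j / 2)) else 0) := by
        intro l _
        have e2 : ∀ j', e.r l j' * ((1 - x l j' / 2) *
            ((if l = i' ∧ j' = j then 1 else 0) - (if l = i ∧ j' = j then 1 else 0))) =
            (if j' = j then ((if l = i' then e.r l j * (1 - x l j / 2) else 0) -
              (if l = i then e.r l j * (1 - x l j / 2) else 0)) else 0) := by
          intro j'
          by_cases hj : j' = j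
          · subst hj
            simp only [and_true, if_true]
            split_ifs <;> ring
          · simp [hj]
        rw [Finset.sum_congr rfl fun j' _ => e2 j', Finset.sum_ite_eq' Finset.univ j]
        simp only [Finset.mem_univ, if_true]
        split_ifs <;> ring
      rw [Finset.sum_congr rfl e1, Finset.sum_sub_distrib, Finset.sum_ite_eq' A i',
        Finset.sum_ite_eq' A i, if_pos hi', if_pos hi] at h
      linarith
    · -- feasibility of the direction
      have hev : ∀ᶠ ε in 𝓝[>] (0 : ℝ), ε ≤ x i j :=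
        mem_of_superset (Ioc_mem_nhdsGT hpos) (fun ε hε => hε.2)
      filter_upwards [hev, self_mem_nhdsWithin] with ε hε hε0
      have hε0' : (0 : ℝ) < ε := hε0
      refine ⟨?_, ?_, ?_⟩
      · intro l j'
        have h0 := hx.1 l j'
        show 0 ≤ x l j' + ε * ((if l = i' ∧ j' = j then (1 : ℝ) else 0) -
          (if l = i ∧ j' = j then 1 else 0))
        by_cases h1 : l = i ∧ j' = j
        · obtain ⟨rfl, rfl⟩ := h1
          have h2 : ¬ (l = i' ∧ j' = j') := fun h => hii h.1.symm
          rw [if_neg h2, if_pos ⟨rfl, rfl⟩]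
          linarith
        · rw [if_neg h1]
          split_ifs
          · linarith
          · linarith
      · intro l hl j'
        have h1 : ¬ (l = i ∧ j' = j) := fun h => hl (h.1 ▸ hi)
        have h2 : ¬ (l = i' ∧ j' = j) := fun h => hl (h.1 ▸ hi')
        show x l j' + ε * ((if l = i' ∧ j' = j then (1 : ℝ) else 0) -
          (if l = i ∧ j' = j then 1 else 0)) = 0
        rw [if_neg h1, if_neg h2, hx.2.1 l hl j']
        ring
      · intro j'
        show ∑ l, (x l j' + ε * ((if l = i' ∧ j' = j then (1 : ℝ) else 0) -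
          (if l = i ∧ j' = j then 1 else 0))) ≤ 1
        rw [Finset.sum_add_distrib, ← Finset.mul_sum, Finset.sum_sub_distrib]
        have e3 : ∀ a : Fin n, ∑ l, (if l = a ∧ j' = j then (1 : ℝ) else 0) =
            if j' = j then 1 else 0 := by
          intro a
          by_cases hj : j' = j
          · simp [hj]
          · simp [hj]
        rw [e3, e3]
        have := hx.2.2 j'
        linarith
  · intro i hi j hlt
    have h := dir_le F hF hmax (fun l j' => (if l = i ∧ j' = j then 1 else 0)) ?_
    · have e1 : ∀ l ∈ A, α l * ∑ j', e.r l j' * ((1 - x l j' / 2) *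
          (if l = i ∧ j' = j then 1 else 0)) =
          (if l = i then α l * (e.r l j * (1 - x l j / 2)) else 0) := by
        intro l _
        by_cases hl : l = i
        · subst hl
          simp
        · simp [hl]
      rw [Finset.sum_congr rfl e1, Finset.sum_ite_eq' A i, if_pos hi] at h
      have h1 := XA_le_one hx i j
      have h2 := e.r_nonneg i j
      have h3 := hα i hi
      by_contra hne
      have h4 : 0 < e.r i j := lt_of_le_of_ne h2 (Ne.symm hne)
      have h5 : 0 < 1 - x i j / 2 := by linarith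
      have : 0 < α i * (e.r i j * (1 - x i j / 2)) := by positivity
      linarith
    · have hev : ∀ᶠ ε in 𝓝[>] (0 : ℝ), ε ≤ 1 - ∑ l, x l j :=
        mem_of_superset (Ioc_mem_nhdsGT (by linarith)) (fun ε hε => hε.2)
      filter_upwards [hev, self_mem_nhdsWithin] with ε hε hε0
      have hε0' : (0 : ℝ) < ε := hε0
      refine ⟨?_, ?_, ?_⟩
      · intro l j'
        have h0 := hx.1 l j'
        show 0 ≤ x l j' + ε * (if l = i ∧ j' = j then (1 : ℝ) else 0)
        split_ifs
        · linarith
        · linarith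
      · intro l hl j'
        have h1 : ¬ (l = i ∧ j' = j) := fun h => hl (h.1 ▸ hi)
        show x l j' + ε * (if l = i ∧ j' = j then (1 : ℝ) else 0) = 0
        rw [if_neg h1, hx.2.1 l hl j']
        ring
      · intro j'
        show ∑ l, (x l j' + ε * (if l = i ∧ j' = j then (1 : ℝ) else 0)) ≤ 1
        rw [Finset.sum_add_distrib, ← Finset.mul_sum]
        by_cases hj : j' = j
        · subst hj
          simp
          linarith
        · simp [hj]
          exact hx.2.2 j'

/-- First order conditions of the optimal allocation. -/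
theorem foc_of_isOpt {x : Fin n → Fin m → ℝ} (hx : e.IsOpt A x) :
    FOC e A (fun i => g (e.B i) (cv (e.r i) (x i))) x := by
  refine foc_of_max (fun i => G (e.B i)) hx.1 ?_ ?_ ?_
  · intro i _
    exact hasDerivAt_G (e.B_pos i) (cv_XA_nonneg e hx.1 i)
  · intro i _
    exact g_pos (e.B_pos i) (cv_XA_nonneg e hx.1 i)
  · filter_upwards [self_mem_nhdsWithin] with z hz
    exact hx.2 z hz

/-- First order conditions of the agent's own optimum. -/
theorem foc_of_own {k : Fin n} (hk : k ∈ A) {b : ℝ} (hb : 0 < b) {y : Fin n → Fin m → ℝ}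
    (hy : y ∈ XA A) (hpos : 0 < cv (e.r k) (y k))
    (hmax : ∀ z ∈ XA A, Real.exp (-(2 * e.ext A k z / b)) * cv (e.r k) (z k) ≤
      Real.exp (-(2 * e.ext A k y / b)) * cv (e.r k) (y k)) :
    FOC e A (fun i => if i = k then (b / 2) / cv (e.r k) (y k)
      else g (e.B i) (cv (e.r i) (y i))) y := by
  refine foc_of_max (fun i => if i = k then (fun R => (b / 2) * Real.log R) else G (e.B i)) hy
    ?_ ?_ ?_
  · intro i _
    by_cases hik : i = k
    · subst hik
      simp only [if_true]
      have h1 := (Real.hasDerivAt_log hpos.ne').const_mul (b / 2)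
      rw [← div_eq_mul_inv] at h1
      exact h1
    · simp only [if_neg hik]
      exact hasDerivAt_G (e.B_pos i) (cv_XA_nonneg e hy i)
  · intro i _
    by_cases hik : i = k
    · subst hik
      simp only [if_true]
      positivity
    · simp only [if_neg hik]
      exact g_pos (e.B_pos i) (cv_XA_nonneg e hy i)
  · have hcont : Continuous fun z : Fin n → Fin m → ℝ => cv (e.r k) (z k) :=
      (continuous_cv _).comp (continuous_apply k)
    have hev : ∀ᶠ z in 𝓝[XA A] y, 0 < cv (e.r k) (z k) :=
      (hcont.continuousAt.eventually (lt_mem_nhds hpos)).filter_mono nhdsWithin_le_nhds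
    filter_upwards [hev, self_mem_nhdsWithin] with z hz hzA
    have h1 := hmax z hzA
    have h2 := Real.log_le_log (mul_pos (Real.exp_pos _) hz) h1
    rw [Real.log_mul (Real.exp_pos _).ne' hz.ne', Real.log_mul (Real.exp_pos _).ne' hpos.ne',
      Real.log_exp, Real.log_exp] at h2
    have h3 : (b / 2) * Real.log (cv (e.r k) (z k)) - e.ext A k z ≤
        (b / 2) * Real.log (cv (e.r k) (y k)) - e.ext A k y := by
      have h4 := mul_le_mul_of_nonneg_left h2 (by positivity : 0 ≤ b / 2)
      have e1 : ∀ E : ℝ, b / 2 * (-(2 * E / b)) = -E := by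
        intro E
        field_simp
      rw [mul_add, mul_add, e1, e1] at h4
      linarith
    unfold Eco.ext at h3
    have e2 : ∀ z : Fin n → Fin m → ℝ, ∑ i ∈ A, (if i = k then (fun R => (b / 2) * Real.log R)
        else G (e.B i)) (cv (e.r i) (z i)) =
        (b / 2) * Real.log (cv (e.r k) (z k)) + e.welfare (A.erase k) z := by
      intro z
      rw [← Finset.add_sum_erase A _ hk]
      simp only [if_true]
      congr 1
      unfold Eco.welfare
      refine Finset.sum_congr rfl fun i hi => ?_
      rw [if_neg (Finset.ne_of_mem_erase hi)]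
    rw [e2, e2]
    linarith

/-- The own optimum never exceeds the optimal allocation. -/
theorem own_le {k : Fin n} (hk : k ∈ A) {x : Fin n → Fin m → ℝ} (hx : e.IsOpt A x)
    {b : ℝ} {y : Fin n → Fin m → ℝ}
    (h : Best (XA A) (e.ext A k) (fun z => cv (e.r k) (z k)) (e.B k) (some (b, y)))
    {j : Fin m} (hr : 0 < e.r k j) : y k j ≤ x k j := by
  obtain ⟨hb, hbB, hy, hle, hmax, -⟩ := h
  have hcv : 0 < cv (e.r k) (y k) :=
    (pos_iff_pos_of_mul_pos (lt_of_lt_of_le hb hle)).mp (Real.exp_pos _)
  have hfoc := foc_of_own hk hb hy hcv hmax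
  refine compare (foc_of_isOpt hx) hfoc ?_ ?_ (fun i _ => rfl) hk ?_ ?_ hr
  · intro i _
    exact g_pos (e.B_pos i) (cv_XA_nonneg e hx.1 i)
  · intro i _
    by_cases hik : i = k
    · subst hik
      simp only [if_true]
      positivity
    · simp only [if_neg hik]
      exact g_pos (e.B_pos i) (cv_XA_nonneg e hy i)
  · intro i _ hik
    simp only [if_neg hik]
  · simp only [if_true]
    unfold g
    have hB := e.B_pos k
    have hE := ext_nonneg e (k := k) hy
    have h1 : b ≤ cv (e.r k) (y k) := by
      refine hle.trans ?_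
      have h2 : Real.exp (-(2 * e.ext A k y / b)) ≤ 1 := by
        rw [Real.exp_le_one_iff]
        have : 0 ≤ 2 * e.ext A k y / b := by positivity
        linarith
      calc Real.exp (-(2 * e.ext A k y / b)) * cv (e.r k) (y k) ≤ 1 * cv (e.r k) (y k) :=
            mul_le_mul_of_nonneg_right h2 hcv.le
        _ = _ := one_mul _
    rw [div_le_div_iff₀ hcv (by positivity)]
    nlinarith [mul_le_mul_of_nonneg_right hbB hcv.le, mul_le_mul_of_nonneg_left h1 hB.le]

end H70VM
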